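import Mathlib

set_option autoImplicit false

/-! Rooted tree tools: a parent function for a tree `G` and a root `r`. -/

namespace Pool.Agent.X54.Tree

open SimpleGraph

/-- In a tree with root `r` there is a parent function: the parent of `v ≠ r` is adjacent to `v`
and one step closer to `r`, and every edge joins a vertex to its parent. -/
theorem exists_parent {V : Type*} (G : SimpleGraph V) (hG : G.IsTree) (r : V) :
    ∃ par : V → V,
      (∀ v, v ≠ r → G.Adj v (par v) ∧ G.dist r (par v) + 1 = G.dist r v) ∧
      (∀ u v, G.Adj u v → (u ≠ r ∧ par u = v) ∨ (v ≠ r ∧ par v = u)) := by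
  classical
  have hp : ∀ v, ∃ p : G.Walk r v, p.IsPath ∧ p.length = G.dist r v := fun v =>
    (hG.connected r v).exists_path_of_dist
  choose p hp1 hp2 using hp
  have key : ∀ u v, G.Adj u v → G.dist r v = G.dist r u + 1 →
      v ≠ r ∧ (p v).penultimate = u := by
    intro u v h hd
    have hv : v ∉ (p u).support := by
      intro hv
      have := hG.isAcyclic.path_concat (hp1 v) (hp1 u) h.symm hv
      have h2 := congrArg Walk.length this
      rw [Walk.length_concat, hp2, hp2] at h2
      omega
    have hu : u ∈ (p v).support :=
      hG.isAcyclic.mem_support_of_ne_mem_support_of_adj_of_isPath (hp1 v) (hp1 u) h.symm hv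
    refine ⟨?_, (hG.isAcyclic.eq_penultimate_of_adj_end (hp1 v) h.symm hu).symm⟩
    rintro rfl
    simp at hd
  have key2 : ∀ v, v ≠ r → G.Adj v (p v).penultimate := by
    intro v hv
    refine (Walk.adj_penultimate (p := p v) ?_).symm
    intro hn
    exact hv hn.eq.symm
  refine ⟨fun v => (p v).penultimate, ?_, ?_⟩
  · intro v hv
    have ha := key2 v hv
    refine ⟨ha, ?_⟩
    rcases hG.dist_eq_dist_add_one_of_adj r ha with h | h
    · exact h.symm
    · -- then penultimate is a child of v, so its penultimate is v ; but length
      exfalso
      have hn : ¬ (p v).Nil := fun hn => hv hn.eq.symm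
      have h1 := (p v).length_dropLast_add_one hn
      have h2 := SimpleGraph.dist_le (p v).dropLast
      rw [hp2] at h1
      omega
  · intro u v h
    rcases hG.dist_eq_dist_add_one_of_adj r h with hd | hd
    · exact Or.inl (key v u h.symm hd)
    · exact Or.inr (key u v h hd)

end Pool.Agent.X54.Tree
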