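import Mathlib
set_option autoImplicit false
set_option maxHeartbeats 4000000
namespace Pool.Agent.X54.HI
def t0 : ℕ → ℕ → ℤ
  | 1, _ => -79
  | 2, 1 => -70
  | 2, _ => -31
  | 3, 1 => -70
  | 3, 2 => -39
  | 3, _ => -14
  | 4, 1 => -70
  | 4, 2 => -39
  | 4, 3 => -25
  | 4, _ => -11
  | 5, 1 => -74
  | 5, 2 => -43
  | 5, 3 => -35
  | 5, 4 => -18
  | 5, _ => -13
  | 6, 1 => -74
  | 6, 2 => -43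
  | 6, 3 => -35
  | 6, 4 => -31
  | 6, _ => -13
  | _, 1 => -80
  | _, 2 => -49
  | _, 3 => -41
  | _, 4 => -37
  | _, 5 => -29
  | _, 6 => -19
  | _, _ => -16
def t1 : ℕ → ℕ → ℤ
  | 1, _ => 48
  | 2, 2 => 9
  | 2, _ => 17
  | 3, 3 => -8
  | 3, 4 => 3
  | 3, _ => 9
  | 4, 3 => -12
  | 4, 4 => -15
  | 4, 5 => -8
  | 4, _ => 5
  | 5, 3 => -18
  | 5, 4 => -21
  | 5, 5 => -19
  | 5, 6 => -19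
  | 5, _ => -3
  | 6, 3 => -27
  | 6, 4 => -30
  | 6, 5 => -28
  | 6, 6 => -28
  | 6, _ => -22
  | _, 3 => -37
  | _, 4 => -40
  | _, 5 => -38
  | _, 6 => -38
  | _, _ => -35

/-- upper bound for the children of a vertex outside the independent set -/
def tm (a b : ℕ) : ℤ := max (t0 a b) (t1 a b)

lemma arith_out (a b c x1 x2 x3 x4 x5 x6 : ℕ) (ha : 1 ≤ a) (ha7 : a ≤ 7) (hb : 1 ≤ b) (hb7 : b ≤ 7)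
    (h1 : x1 ≤ 1) (h2 : x2 ≤ 1) (h3 : x3 ≤ 1) (h4 : x4 ≤ 1) (h5 : x5 ≤ 1) (h6 : x6 ≤ 1)
    (hs : x1 + x2 + x3 + x4 + x5 + x6 ≤ c) (hc : a ≤ 6 → c + 1 = a) (hc7 : a = 7 → 6 ≤ c)
    (g1 : b = 1 → x1 = 0) (g2 : b = 2 → x2 = 0) (g3 : b = 3 → x3 = 0) (g4 : b = 4 → x4 = 0)
    (g5 : b = 5 → x5 = 0) (g6 : b = 6 → x6 = 0) :
    -79 + (tm 7 a * (c : ℤ) + (tm 1 a - tm 7 a) * (x1 : ℤ) + (tm 2 a - tm 7 a) * (x2 : ℤ)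
      + (tm 3 a - tm 7 a) * (x3 : ℤ) + (tm 4 a - tm 7 a) * (x4 : ℤ)
      + (tm 5 a - tm 7 a) * (x5 : ℤ) + (tm 6 a - tm 7 a) * (x6 : ℤ)) ≤ t0 a b := by
  interval_cases a <;> interval_cases b <;> norm_num [tm, t0, t1] <;> omega

lemma arith_in (a b c x1 x2 x3 x4 x5 x6 : ℕ) (ha : 1 ≤ a) (ha7 : a ≤ 7) (hb : 1 ≤ b) (hb7 : b ≤ 7)
    (h1 : x1 ≤ 1) (h2 : x2 ≤ 1) (h3 : x3 ≤ 1) (h4 : x4 ≤ 1) (h5 : x5 ≤ 1) (h6 : x6 ≤ 1)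
    (hs : x1 + x2 + x3 + x4 + x5 + x6 ≤ c) (hc : a ≤ 6 → c + 1 = a) (hc7 : a = 7 → 6 ≤ c)
    (g1 : b = 1 → x1 = 0) (g2 : b = 2 → x2 = 0) (g3 : b = 3 → x3 = 0) (g4 : b = 4 → x4 = 0)
    (g5 : b = 5 → x5 = 0) (g6 : b = 6 → x6 = 0) :
    48 + (t0 7 a * (c : ℤ) + (t0 1 a - t0 7 a) * (x1 : ℤ) + (t0 2 a - t0 7 a) * (x2 : ℤ)
      + (t0 3 a - t0 7 a) * (x3 : ℤ) + (t0 4 a - t0 7 a) * (x4 : ℤ)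
      + (t0 5 a - t0 7 a) * (x5 : ℤ) + (t0 6 a - t0 7 a) * (x6 : ℤ)) ≤ t1 a b := by
  interval_cases a <;> interval_cases b <;> norm_num [tm, t0, t1] <;> omega

lemma arith_root_out (a c x1 x2 x3 x4 x5 x6 : ℕ) (ha : 1 ≤ a) (ha7 : a ≤ 7)
    (h1 : x1 ≤ 1) (h2 : x2 ≤ 1) (h3 : x3 ≤ 1) (h4 : x4 ≤ 1) (h5 : x5 ≤ 1) (h6 : x6 ≤ 1)
    (hs : x1 + x2 + x3 + x4 + x5 + x6 ≤ c) (hc : a ≤ 6 → c = a) (hc7 : a = 7 → 7 ≤ c) :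
    -79 + (tm 7 a * (c : ℤ) + (tm 1 a - tm 7 a) * (x1 : ℤ) + (tm 2 a - tm 7 a) * (x2 : ℤ)
      + (tm 3 a - tm 7 a) * (x3 : ℤ) + (tm 4 a - tm 7 a) * (x4 : ℤ)
      + (tm 5 a - tm 7 a) * (x5 : ℤ) + (tm 6 a - tm 7 a) * (x6 : ℤ)) ≤ -22 := by
  interval_cases a <;> norm_num [tm, t0, t1] <;> omega

lemma arith_root_in (a c x1 x2 x3 x4 x5 x6 : ℕ) (ha : 1 ≤ a) (ha7 : a ≤ 7)
    (h1 : x1 ≤ 1) (h2 : x2 ≤ 1) (h3 : x3 ≤ 1) (h4 : x4 ≤ 1) (h5 : x5 ≤ 1) (h6 : x6 ≤ 1)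
    (hs : x1 + x2 + x3 + x4 + x5 + x6 ≤ c) (hc : a ≤ 6 → c = a) (hc7 : a = 7 → 7 ≤ c) :
    48 + (t0 7 a * (c : ℤ) + (t0 1 a - t0 7 a) * (x1 : ℤ) + (t0 2 a - t0 7 a) * (x2 : ℤ)
      + (t0 3 a - t0 7 a) * (x3 : ℤ) + (t0 4 a - t0 7 a) * (x4 : ℤ)
      + (t0 5 a - t0 7 a) * (x5 : ℤ) + (t0 6 a - t0 7 a) * (x6 : ℤ)) ≤ -22 := by
  interval_cases a <;> norm_num [tm, t0, t1] <;> omega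
end Pool.Agent.X54.HI
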