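import Mathlib
import Pool.Agent.X54.Tree
import Pool.Agent.X54.HI1
set_option autoImplicit false

namespace Pool.Agent.X54.HI

open SimpleGraph Finset

/-- `G` is highly irregular: any two distinct neighbours of a vertex have different degrees. -/
def HighlyIrregular {V : Type} [Fintype V] (G : SimpleGraph V) [DecidableRel G.Adj] : Prop :=
  ∀ v x y : V, G.Adj v x → G.Adj v y → x ≠ y → G.degree x ≠ G.degree y

lemma sum_deg {V : Type} [DecidableEq V] (C : Finset V) (dg : V → ℕ) (hd : ∀ u ∈ C, 1 ≤ dg u)
    (F : ℕ → ℤ) (Q : ℤ) (hF : ∀ d, 7 ≤ d → F d = Q) :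
    ∑ u ∈ C, F (dg u) = Q * (C.card : ℤ) + (F 1 - Q) * ((C.filter (fun u => dg u = 1)).card : ℤ)
      + (F 2 - Q) * ((C.filter (fun u => dg u = 2)).card : ℤ)
      + (F 3 - Q) * ((C.filter (fun u => dg u = 3)).card : ℤ)
      + (F 4 - Q) * ((C.filter (fun u => dg u = 4)).card : ℤ)
      + (F 5 - Q) * ((C.filter (fun u => dg u = 5)).card : ℤ)
      + (F 6 - Q) * ((C.filter (fun u => dg u = 6)).card : ℤ) := by
  induction C using Finset.induction_on with
  | empty => simp
  | insert x C hx ih =>
    have ih' := ih (fun u hu => hd u (Finset.mem_insert_of_mem hu))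
    have hx1 := hd x (Finset.mem_insert_self x C)
    rw [Finset.sum_insert hx, ih', Finset.card_insert_of_notMem hx]
    simp only [Finset.filter_insert]
    have hn : ∀ j, x ∉ C.filter (fun u => dg u = j) := fun j h => hx (Finset.mem_filter.1 h).1
    by_cases h7 : 7 ≤ dg x
    · rw [hF _ h7]
      rw [if_neg (by omega), if_neg (by omega), if_neg (by omega), if_neg (by omega),
        if_neg (by omega), if_neg (by omega)]
      push_cast; ring
    · have hlt : dg x < 7 := by omega
      interval_cases h : dg x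
      all_goals
        simp only [Nat.reduceEqDiff, reduceIte, OfNat.ofNat_ne_one, OfNat.one_ne_ofNat]
        rw [Finset.card_insert_of_notMem (hn _)]
        push_cast
        ring

variable {V : Type} [Fintype V] [DecidableEq V] (G : SimpleGraph V) [DecidableRel G.Adj]

lemma counts (hHI : HighlyIrregular G) (v : V) (C : Finset V) (hC : ∀ u ∈ C, G.Adj v u) (j : ℕ) :
    (C.filter (fun u => G.degree u = j)).card ≤ 1 := by
  rw [Finset.card_le_one]
  intro x hx y hy
  by_contra hne
  obtain ⟨hx1, hx2⟩ := Finset.mem_filter.1 hx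
  obtain ⟨hy1, hy2⟩ := Finset.mem_filter.1 hy
  exact hHI v x y (hC x hx1) (hC y hy1) hne (hx2.trans hy2.symm)

lemma sum_filter_le (C : Finset V) :
    (C.filter (fun u => G.degree u = 1)).card + (C.filter (fun u => G.degree u = 2)).card +
    (C.filter (fun u => G.degree u = 3)).card + (C.filter (fun u => G.degree u = 4)).card +
    (C.filter (fun u => G.degree u = 5)).card + (C.filter (fun u => G.degree u = 6)).card
      ≤ C.card := by
  classical
  have : (∑ j ∈ ({1, 2, 3, 4, 5, 6} : Finset ℕ), (C.filter (fun u => G.degree u = j)).card) ≤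
      C.card := by
    rw [← Finset.card_biUnion]
    · refine Finset.card_le_card ?_
      intro u hu
      rw [Finset.mem_biUnion] at hu
      obtain ⟨j, _, hj⟩ := hu
      exact (Finset.mem_filter.1 hj).1
    · intro i _ j _ hij
      rw [Function.onFun, Finset.disjoint_left]
      intro u hu hu'
      exact hij ((Finset.mem_filter.1 hu).2.symm.trans (Finset.mem_filter.1 hu').2)
  simpa [Finset.sum_insert, add_assoc] using this

/-- table with `min` -/
def u0 (a b : ℕ) : ℤ := t0 (min a 7) (min b 7)
/-- table with `min` -/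
def u1 (a b : ℕ) : ℤ := t1 (min a 7) (min b 7)

/-- the sum over the children of a vertex outside the independent set -/
lemma child_sum_out (S : Finset V) (v : V) (C : Finset V)
    (hC : ∀ u ∈ C, G.Adj v u) :
    ∑ u ∈ C, (if u ∈ S then u1 (G.degree u) (G.degree v) else u0 (G.degree u) (G.degree v)) ≤
      tm 7 (min (G.degree v) 7) * (C.card : ℤ)
      + (tm 1 (min (G.degree v) 7) - tm 7 (min (G.degree v) 7)) *
        ((C.filter (fun u => G.degree u = 1)).card : ℤ)
      + (tm 2 (min (G.degree v) 7) - tm 7 (min (G.degree v) 7)) *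
        ((C.filter (fun u => G.degree u = 2)).card : ℤ)
      + (tm 3 (min (G.degree v) 7) - tm 7 (min (G.degree v) 7)) *
        ((C.filter (fun u => G.degree u = 3)).card : ℤ)
      + (tm 4 (min (G.degree v) 7) - tm 7 (min (G.degree v) 7)) *
        ((C.filter (fun u => G.degree u = 4)).card : ℤ)
      + (tm 5 (min (G.degree v) 7) - tm 7 (min (G.degree v) 7)) *
        ((C.filter (fun u => G.degree u = 5)).card : ℤ)
      + (tm 6 (min (G.degree v) 7) - tm 7 (min (G.degree v) 7)) *
        ((C.filter (fun u => G.degree u = 6)).card : ℤ) := by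
  have h := sum_deg C (fun u => G.degree u) (by
    intro u hu
    rw [Nat.one_le_iff_ne_zero, ← Nat.pos_iff_ne_zero, SimpleGraph.degree_pos_iff_exists_adj]
    exact ⟨v, (hC u hu).symm⟩) (fun d => tm (min d 7) (min (G.degree v) 7))
    (tm 7 (min (G.degree v) 7)) (by
      intro d hd
      simp only [min_eq_right hd])
  simp only [show min 1 7 = 1 from rfl, show min 2 7 = 2 from rfl, show min 3 7 = 3 from rfl,
    show min 4 7 = 4 from rfl, show min 5 7 = 5 from rfl, show min 6 7 = 6 from rfl] at h
  rw [← h]
  refine Finset.sum_le_sum ?_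
  intro u _
  split_ifs
  · exact le_max_right _ _
  · exact le_max_left _ _

/-- the sum over the children of a vertex of the independent set -/
lemma child_sum_in (S : Finset V) (v : V) (C : Finset V)
    (hC : ∀ u ∈ C, G.Adj v u) (hS : ∀ u ∈ C, u ∉ S) :
    ∑ u ∈ C, (if u ∈ S then u1 (G.degree u) (G.degree v) else u0 (G.degree u) (G.degree v)) =
      t0 7 (min (G.degree v) 7) * (C.card : ℤ)
      + (t0 1 (min (G.degree v) 7) - t0 7 (min (G.degree v) 7)) *
        ((C.filter (fun u => G.degree u = 1)).card : ℤ)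
      + (t0 2 (min (G.degree v) 7) - t0 7 (min (G.degree v) 7)) *
        ((C.filter (fun u => G.degree u = 2)).card : ℤ)
      + (t0 3 (min (G.degree v) 7) - t0 7 (min (G.degree v) 7)) *
        ((C.filter (fun u => G.degree u = 3)).card : ℤ)
      + (t0 4 (min (G.degree v) 7) - t0 7 (min (G.degree v) 7)) *
        ((C.filter (fun u => G.degree u = 4)).card : ℤ)
      + (t0 5 (min (G.degree v) 7) - t0 7 (min (G.degree v) 7)) *
        ((C.filter (fun u => G.degree u = 5)).card : ℤ)
      + (t0 6 (min (G.degree v) 7) - t0 7 (min (G.degree v) 7)) *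
        ((C.filter (fun u => G.degree u = 6)).card : ℤ) := by
  have h := sum_deg C (fun u => G.degree u) (by
    intro u hu
    rw [Nat.one_le_iff_ne_zero, ← Nat.pos_iff_ne_zero, SimpleGraph.degree_pos_iff_exists_adj]
    exact ⟨v, (hC u hu).symm⟩) (fun d => t0 (min d 7) (min (G.degree v) 7))
    (t0 7 (min (G.degree v) 7)) (by
      intro d hd
      simp only [min_eq_right hd])
  simp only [show min 1 7 = 1 from rfl, show min 2 7 = 2 from rfl, show min 3 7 = 3 from rfl,
    show min 4 7 = 4 from rfl, show min 5 7 = 5 from rfl, show min 6 7 = 6 from rfl] at h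
  rw [← h]
  refine Finset.sum_congr rfl ?_
  intro u hu
  rw [if_neg (hS u hu)]
  rfl

/-- **Upper bound**: `127 |S| + 22 ≤ 79 n` for every independent set `S` of a highly irregular
tree with `n ≥ 2` vertices. -/
theorem upper (hG : G.IsTree) (hHI : HighlyIrregular G) (hn : 2 ≤ Fintype.card V) (S : Finset V)
    (hS : ∀ u ∈ S, ∀ v ∈ S, ¬ G.Adj u v) : 127 * S.card + 22 ≤ 79 * Fintype.card V := by
  obtain ⟨r, r', hrr⟩ := Fintype.one_lt_card_iff.1 (show 1 < Fintype.card V by omega)
  obtain ⟨par, h1, h2⟩ := Pool.Agent.X54.Tree.exists_parent G hG r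
  set C : V → Finset V := fun v => Finset.univ.filter (fun u => u ≠ r ∧ par u = v) with hCdef
  have memC : ∀ v u, u ∈ C v ↔ u ≠ r ∧ par u = v := by
    intro v u; rw [hCdef]; simp
  have hCadj : ∀ v, ∀ u ∈ C v, G.Adj v u := by
    intro v u hu
    obtain ⟨hur, hp⟩ := (memC v u).1 hu
    have := (h1 u hur).1
    rw [hp] at this
    exact this.symm
  have hdist : ∀ v, ∀ u ∈ C v, G.dist r v + 1 = G.dist r u := by
    intro v u hu
    obtain ⟨hur, hp⟩ := (memC v u).1 hu
    have := (h1 u hur).2
    rwa [hp] at this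
  have hdegpos : ∀ v, 1 ≤ G.degree v := by
    intro v
    have : Nontrivial V := ⟨r, r', hrr⟩
    have := hG.connected.preconnected.degree_pos_of_nontrivial v
    exact this
  -- degrees
  have hdegr : (C r).card = G.degree r := by
    rw [← SimpleGraph.card_neighborFinset_eq_degree]
    congr 1
    ext u
    rw [SimpleGraph.mem_neighborFinset]
    constructor
    · exact hCadj r u
    · intro h
      rcases h2 r u h with ⟨h3, _⟩ | ⟨h3, h4⟩
      · exact absurd rfl h3
      · exact (memC r u).2 ⟨h3, h4⟩
  have hparC : ∀ v, v ≠ r → par v ∉ C v := by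
    intro v hv h
    have e1 := hdist v _ h
    have e2 := (h1 v hv).2
    omega
  have hdeg : ∀ v, v ≠ r → (C v).card + 1 = G.degree v := by
    intro v hv
    rw [← SimpleGraph.card_neighborFinset_eq_degree, ← Finset.card_insert_of_notMem (hparC v hv)]
    congr 1
    ext u
    rw [SimpleGraph.mem_neighborFinset, Finset.mem_insert]
    constructor
    · rintro (rfl | h)
      · exact (h1 v hv).1
      · exact hCadj v u h
    · intro h
      rcases h2 v u h with ⟨_, h4⟩ | ⟨h3, h4⟩
      · exact Or.inl h4.symm
      · exact Or.inr ((memC v u).2 ⟨h3, h4⟩)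
  -- the potential
  set f : V → ℤ := fun v => if v ∈ S then u1 (G.degree v) (G.degree (par v))
    else u0 (G.degree v) (G.degree (par v)) with hf
  have hfC : ∀ v, ∑ u ∈ C v, f u =
      ∑ u ∈ C v, (if u ∈ S then u1 (G.degree u) (G.degree v)
        else u0 (G.degree u) (G.degree v)) := by
    intro v
    refine Finset.sum_congr rfl ?_
    intro u hu
    obtain ⟨_, rfl⟩ := (memC v u).1 hu
    rfl
  set w : V → ℤ := fun v => if v ∈ S then 48 else -79 with hw
  have hcnt := fun v j => counts G hHI v (C v) (hCadj v) j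
  have hsum := fun v => sum_filter_le G (C v)
  have hexcl : ∀ v, v ≠ r → ∀ j, G.degree (par v) = j →
      ((C v).filter (fun u => G.degree u = j)).card = 0 := by
    intro v hv j hj
    rw [Finset.card_eq_zero, Finset.filter_eq_empty_iff]
    intro u hu hdu
    refine hHI v u (par v) (hCadj v u hu) (h1 v hv).1 ?_ (hdu.trans hj.symm)
    rintro rfl
    exact hparC v hv hu
  have hloc : ∀ v, v ≠ r → w v + ∑ u ∈ C v, f u ≤ f v := by
    intro v hv
    have hd := hdeg v hv
    have hdp := hdegpos (par v)
    rw [hfC]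
    by_cases hvS : v ∈ S
    · rw [child_sum_in G S v (C v) (hCadj v) (fun u hu hu' => hS v hvS u hu' (hCadj v u hu))]
      have e1 : w v = 48 := by rw [hw]; simp [hvS]
      have e2 : f v = t1 (min (G.degree v) 7) (min (G.degree (par v)) 7) := by
        rw [hf]; simp only [hvS, if_true]; rfl
      rw [e1, e2]
      refine arith_in (min (G.degree v) 7) (min (G.degree (par v)) 7) (C v).card _ _ _ _ _ _
        (by omega) (by omega) (by omega) (by omega) (hcnt v 1) (hcnt v 2) (hcnt v 3) (hcnt v 4)
        (hcnt v 5) (hcnt v 6) (hsum v) (by omega) (by omega) ?_ ?_ ?_ ?_ ?_ ?_ <;>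
        (intro h; exact hexcl v hv _ (by omega))
    · have e1 : w v = -79 := by rw [hw]; simp [hvS]
      have e2 : f v = t0 (min (G.degree v) 7) (min (G.degree (par v)) 7) := by
        rw [hf]; simp only [hvS, if_false]; rfl
      rw [e1, e2]
      refine (add_le_add_right (child_sum_out G S v (C v) (hCadj v)) _).trans ?_
      refine arith_out (min (G.degree v) 7) (min (G.degree (par v)) 7) (C v).card _ _ _ _ _ _
        (by omega) (by omega) (by omega) (by omega) (hcnt v 1) (hcnt v 2) (hcnt v 3) (hcnt v 4)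
        (hcnt v 5) (hcnt v 6) (hsum v) (by omega) (by omega) ?_ ?_ ?_ ?_ ?_ ?_ <;>
        (intro h; exact hexcl v hv _ (by omega))
  have hroot : w r + ∑ u ∈ C r, f u ≤ -22 := by
    have hdp := hdegpos r
    rw [hfC]
    by_cases hvS : r ∈ S
    · rw [child_sum_in G S r (C r) (hCadj r) (fun u hu hu' => hS r hvS u hu' (hCadj r u hu))]
      have e1 : w r = 48 := by rw [hw]; simp [hvS]
      rw [e1]
      exact arith_root_in (min (G.degree r) 7) (C r).card _ _ _ _ _ _
        (by omega) (by omega) (hcnt r 1) (hcnt r 2) (hcnt r 3) (hcnt r 4)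
        (hcnt r 5) (hcnt r 6) (hsum r) (by omega) (by omega)
    · have e1 : w r = -79 := by rw [hw]; simp [hvS]
      rw [e1]
      refine (add_le_add_right (child_sum_out G S r (C r) (hCadj r)) _).trans ?_
      exact arith_root_out (min (G.degree r) 7) (C r).card _ _ _ _ _ _
        (by omega) (by omega) (hcnt r 1) (hcnt r 2) (hcnt r 3) (hcnt r 4)
        (hcnt r 5) (hcnt r 6) (hsum r) (by omega) (by omega)
  -- summation
  have hsw : ∑ v, w v = 127 * (S.card : ℤ) - 79 * (Fintype.card V : ℤ) := by
    have : ∀ v, w v = (if v ∈ S then (127 : ℤ) else 0) - 79 := by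
      intro v; rw [hw]; simp only; split_ifs <;> norm_num
    rw [Finset.sum_congr rfl (fun v _ => this v), Finset.sum_sub_distrib]
    simp [Finset.sum_ite_mem, mul_comm]
  have hswap : ∑ v, ∑ u ∈ C v, f u = ∑ u ∈ Finset.univ.erase r, f u := by
    have e1 : ∀ v, ∑ u ∈ C v, f u = ∑ u ∈ Finset.univ.erase r, if par u = v then f u else 0 := by
      intro v
      rw [← Finset.sum_filter]
      refine Finset.sum_congr ?_ (fun _ _ => rfl)
      ext u
      rw [memC, Finset.mem_filter, Finset.mem_erase]
      simp
    rw [Finset.sum_congr rfl (fun v _ => e1 v), Finset.sum_comm]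
    refine Finset.sum_congr rfl ?_
    intro u _
    simp
  have htot : ∑ v, (w v + ∑ u ∈ C v, f u) ≤ -22 + ∑ u ∈ Finset.univ.erase r, f u := by
    rw [← Finset.add_sum_erase Finset.univ _ (Finset.mem_univ r)]
    refine add_le_add hroot (Finset.sum_le_sum ?_)
    intro v hv
    exact hloc v (Finset.ne_of_mem_erase hv)
  rw [Finset.sum_add_distrib, hswap, hsw] at htot
  omega

end Pool.Agent.X54.HI
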