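import Mathlib
set_option autoImplicit false

/-! Labelled rooted trees built by attaching, and their graphs. -/

namespace Pool.Agent.X54.RT

open SimpleGraph Finset

/-- rooted trees with a Boolean label at each vertex: `one b` is a single vertex, and `att s t` is
`s` with the root of `t` attached to the root of `s` as a new child -/
inductive T where
  | one (b : Bool) : T
  | att (s t : T) : T

/-- label of the root -/
def lab : T → Bool
  | .one b => b
  | .att s _ => lab s

/-- number of vertices -/
def size : T → ℕ
  | .one _ => 1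
  | .att s t => size s + size t

/-- number of vertices with label `true` -/
def cnt : T → ℕ
  | .one b => b.toNat
  | .att s t => cnt s + cnt t

/-- number of children of the root -/
def nch : T → ℕ
  | .one _ => 0
  | .att s _ => nch s + 1

/-- the degrees of the children of the root -/
def chd : T → List ℕ
  | .one _ => []
  | .att s t => (nch t + 1) :: chd s

/-- all vertices other than the root are fine, if the root has degree `D` -/
def good : T → ℕ → Prop
  | .one _, _ => True
  | .att s t, D => good s D ∧ good t (nch t + 1) ∧ (D :: chd t).Nodup ∧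
      ¬ (lab s = true ∧ lab t = true)

/-- the vertex type -/
def V : T → Type
  | .one _ => Unit
  | .att s t => V s ⊕ V t

instance finV : (t : T) → Fintype (V t)
  | .one _ => inferInstanceAs (Fintype Unit)
  | .att s t => by
      haveI := finV s; haveI := finV t
      exact inferInstanceAs (Fintype (V s ⊕ V t))

/-- inclusion of the first part -/
def il {s t : T} (x : V s) : V (.att s t) := (Sum.inl x : V s ⊕ V t)
/-- inclusion of the second part -/
def ir {s t : T} (x : V t) : V (.att s t) := (Sum.inr x : V s ⊕ V t)

lemma il_inj {s t : T} {x y : V s} (h : (il x : V (.att s t)) = il y) : x = y :=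
  Sum.inl_injective h
lemma ir_inj {s t : T} {x y : V t} (h : (ir x : V (.att s t)) = ir y) : x = y :=
  Sum.inr_injective h
lemma il_ne_ir {s t : T} {x : V s} {y : V t} : (il x : V (.att s t)) ≠ ir y :=
  fun h => Sum.inl_ne_inr h
lemma casesV {s t : T} (v : V (.att s t)) : (∃ x, v = il x) ∨ (∃ y, v = ir y) := by
  rcases (show V s ⊕ V t from v) with x | y
  · exact Or.inl ⟨x, rfl⟩
  · exact Or.inr ⟨y, rfl⟩

/-- the root -/
def rt : (t : T) → V t
  | .one _ => ()
  | .att s _ => il (rt s)

/-- the graph -/
def G : (t : T) → SimpleGraph (V t)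
  | .one _ => (⊥ : SimpleGraph Unit)
  | .att s t => ((G s ⊕g G t) ⊔ SimpleGraph.edge (Sum.inl (rt s)) (Sum.inr (rt t)) :
      SimpleGraph (V s ⊕ V t))

/-- the label function -/
def L : (t : T) → V t → Bool
  | .one b => fun _ => b
  | .att s t => (Sum.elim (L s) (L t) : V s ⊕ V t → Bool)

/-- the degrees, if the root has degree `D` -/
def vd : (t : T) → ℕ → V t → ℕ
  | .one _, D => fun _ => D
  | .att s t, D => (Sum.elim (vd s D) (vd t (nch t + 1)) : V s ⊕ V t → ℕ)

lemma L_il {s t : T} (x : V s) : L (.att s t) (il x) = L s x := rfl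
lemma L_ir {s t : T} (x : V t) : L (.att s t) (ir x) = L t x := rfl
lemma vd_il {s t : T} (D : ℕ) (x : V s) : vd (.att s t) D (il x) = vd s D x := rfl
lemma vd_ir {s t : T} (D : ℕ) (x : V t) : vd (.att s t) D (ir x) = vd t (nch t + 1) x := rfl

lemma card_V : ∀ t : T, Fintype.card (V t) = size t
  | .one _ => rfl
  | .att s t => by
      have := Fintype.card_sum (α := V s) (β := V t)
      rw [card_V s, card_V t] at this
      exact this

lemma L_rt : ∀ t : T, L t (rt t) = lab t
  | .one _ => rfl
  | .att s _ => L_rt s

lemma vd_rt : ∀ (t : T) (D : ℕ), vd t D (rt t) = D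
  | .one _, _ => rfl
  | .att s _, D => vd_rt s D

lemma card_L : ∀ t : T, (Finset.univ.filter (fun v => L t v = true)).card = cnt t
  | .one b => by
      cases b <;> rfl
  | .att s t => by
      have h1 := card_L s
      have h2 := card_L t
      have : Fintype.card {v : V s ⊕ V t // Sum.elim (L s) (L t) v = true} =
          cnt s + cnt t := by
        rw [← h1, ← h2, ← Fintype.card_subtype, ← Fintype.card_subtype, ← Fintype.card_sum]
        exact Fintype.card_congr Equiv.subtypeSum
      rw [Fintype.card_subtype] at this
      exact this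

/-- adjacency in `G (att s t)` -/
lemma adj_ll {s t : T} {x y : V s} : (G (.att s t)).Adj (il x) (il y) ↔ (G s).Adj x y := by
  change ((G s ⊕g G t) ⊔ SimpleGraph.edge (Sum.inl (rt s)) (Sum.inr (rt t))).Adj
    (Sum.inl x) (Sum.inl y) ↔ _
  simp [SimpleGraph.edge_adj]

lemma adj_rr {s t : T} {x y : V t} : (G (.att s t)).Adj (ir x) (ir y) ↔ (G t).Adj x y := by
  change ((G s ⊕g G t) ⊔ SimpleGraph.edge (Sum.inl (rt s)) (Sum.inr (rt t))).Adj
    (Sum.inr x) (Sum.inr y) ↔ _
  simp [SimpleGraph.edge_adj]

lemma adj_lr {s t : T} {x : V s} {y : V t} :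
    (G (.att s t)).Adj (il x) (ir y) ↔ x = rt s ∧ y = rt t := by
  change ((G s ⊕g G t) ⊔ SimpleGraph.edge (Sum.inl (rt s)) (Sum.inr (rt t))).Adj
    (Sum.inl x) (Sum.inr y) ↔ _
  simp [SimpleGraph.edge_adj]

lemma adj_rl {s t : T} {x : V s} {y : V t} :
    (G (.att s t)).Adj (ir y) (il x) ↔ x = rt s ∧ y = rt t :=
  ⟨fun h => adj_lr.1 h.symm, fun h => (adj_lr.2 h).symm⟩

lemma conn : ∀ t : T, (G t).Connected
  | .one _ => by
      change (⊥ : SimpleGraph Unit).Connected
      have : Nonempty Unit := ⟨()⟩
      exact ⟨fun a b => by cases a; cases b; exact Reachable.refl _⟩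
  | .att s t => by
      have hs := conn s
      have ht := conn t
      have : Nonempty (V (.att s t)) := ⟨rt _⟩
      have h1 : ∀ x : V s, (G (.att s t)).Reachable (il x) (il (rt s)) := by
        intro x
        obtain ⟨p⟩ := hs x (rt s)
        exact ⟨p.map ⟨il, fun h => adj_ll.2 h⟩⟩
      have h2 : ∀ x : V t, (G (.att s t)).Reachable (ir x) (il (rt s)) := by
        intro x
        obtain ⟨p⟩ := ht x (rt t)
        have h3 : (G (.att s t)).Reachable (ir x) (ir (rt t)) :=
          ⟨p.map ⟨ir, fun h => adj_rr.2 h⟩⟩
        have h4 : (G (.att s t)).Adj (ir (rt t)) (il (rt s)) := adj_rl.2 ⟨rfl, rfl⟩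
        exact h3.trans h4.reachable
      refine ⟨fun a b => ?_⟩
      have ha : ∀ a : V (.att s t), (G (.att s t)).Reachable a (il (rt s)) := by
        intro a
        rcases casesV a with ⟨x, rfl⟩ | ⟨x, rfl⟩
        · exact h1 x
        · exact h2 x
      exact (ha a).trans (ha b).symm

open Classical in
lemma deg_il (s t : T) (x : V s) :
    (G (.att s t)).degree (il x) = (G s).degree x + if x = rt s then 1 else 0 := by
  have : (G (.att s t)).neighborFinset (il x) = ((G s).neighborFinset x).image il ∪
      (if x = rt s then {ir (rt t)} else ∅) := by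
    ext y
    rw [Finset.mem_union, SimpleGraph.mem_neighborFinset, Finset.mem_image]
    rcases casesV y with ⟨z, rfl⟩ | ⟨z, rfl⟩
    · rw [adj_ll]
      constructor
      · intro h
        exact Or.inl ⟨z, by rw [SimpleGraph.mem_neighborFinset]; exact h, rfl⟩
      · rintro (⟨z', hz, h⟩ | h)
        · rw [← il_inj h]; rw [SimpleGraph.mem_neighborFinset] at hz; exact hz
        · split_ifs at h
          · rw [Finset.mem_singleton] at h
            exact absurd h il_ne_ir
          · simp at h
    · rw [adj_lr]
      constructor
      · rintro ⟨h, rfl⟩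
        right
        rw [if_pos h, Finset.mem_singleton]
      · rintro (⟨z', _, h⟩ | h)
        · exact absurd h il_ne_ir
        · split_ifs at h with h1
          · rw [Finset.mem_singleton] at h
            exact ⟨h1, ir_inj h⟩
          · simp at h
  rw [← SimpleGraph.card_neighborFinset_eq_degree, this, Finset.card_union_of_disjoint,
    Finset.card_image_of_injective _ (fun a b h => il_inj h),
    SimpleGraph.card_neighborFinset_eq_degree]
  · split_ifs <;> simp
  · rw [Finset.disjoint_left]
    intro y hy hy'
    obtain ⟨z, _, rfl⟩ := Finset.mem_image.1 hy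
    split_ifs at hy'
    · rw [Finset.mem_singleton] at hy'
      exact absurd hy' il_ne_ir
    · simp at hy'

open Classical in
lemma deg_ir (s t : T) (x : V t) :
    (G (.att s t)).degree (ir x) = (G t).degree x + if x = rt t then 1 else 0 := by
  have : (G (.att s t)).neighborFinset (ir x) = ((G t).neighborFinset x).image ir ∪
      (if x = rt t then {il (rt s)} else ∅) := by
    ext y
    rw [Finset.mem_union, SimpleGraph.mem_neighborFinset, Finset.mem_image]
    rcases casesV y with ⟨z, rfl⟩ | ⟨z, rfl⟩
    · rw [adj_rl]
      constructor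
      · rintro ⟨rfl, h⟩
        right
        rw [if_pos h, Finset.mem_singleton]
      · rintro (⟨z', _, h⟩ | h)
        · exact absurd h.symm il_ne_ir
        · split_ifs at h with h1
          · rw [Finset.mem_singleton] at h
            exact ⟨il_inj h, h1⟩
          · simp at h
    · rw [adj_rr]
      constructor
      · intro h
        exact Or.inl ⟨z, by rw [SimpleGraph.mem_neighborFinset]; exact h, rfl⟩
      · rintro (⟨z', hz, h⟩ | h)
        · rw [← ir_inj h]; rw [SimpleGraph.mem_neighborFinset] at hz; exact hz
        · split_ifs at h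
          · rw [Finset.mem_singleton] at h
            exact absurd h.symm il_ne_ir
          · simp at h
  rw [← SimpleGraph.card_neighborFinset_eq_degree, this, Finset.card_union_of_disjoint,
    Finset.card_image_of_injective _ (fun a b h => ir_inj h),
    SimpleGraph.card_neighborFinset_eq_degree]
  · split_ifs <;> simp
  · rw [Finset.disjoint_left]
    intro y hy hy'
    obtain ⟨z, _, rfl⟩ := Finset.mem_image.1 hy
    split_ifs at hy'
    · rw [Finset.mem_singleton] at hy'
      exact absurd hy'.symm il_ne_ir
    · simp at hy'

open Classical in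
lemma deg_root : ∀ t : T, (G t).degree (rt t) = nch t
  | .one b => by
      rw [← SimpleGraph.card_neighborFinset_eq_degree]
      have : (G (.one b)).neighborFinset (rt (.one b)) = ∅ := by
        ext y
        rw [SimpleGraph.mem_neighborFinset]
        constructor
        · intro h; exact absurd h (fun h : (⊥ : SimpleGraph Unit).Adj _ _ => h)
        · intro h; simp at h
      rw [this]; rfl
  | .att s t => by
      change (G (.att s t)).degree (il (rt s)) = nch s + 1
      rw [deg_il, deg_root s, if_pos rfl]

open Classical in
lemma deg_ne : ∀ (t : T) (D : ℕ) (v : V t), v ≠ rt t → (G t).degree v = vd t D v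
  | .one _, _, _, h => absurd rfl h
  | .att s t, D, v, h => by
      rcases casesV v with ⟨x, rfl⟩ | ⟨x, rfl⟩
      · have hx : x ≠ rt s := fun e => h (by rw [e]; rfl)
        rw [deg_il, if_neg hx, vd_il, deg_ne s D x hx, add_zero]
      · rw [deg_ir, vd_ir]
        by_cases hx : x = rt t
        · rw [if_pos hx, hx, deg_root t, vd_rt]
        · rw [if_neg hx, deg_ne t (nch t + 1) x hx, add_zero]

open Classical in
/-- in the whole tree the virtual degrees are the degrees -/
lemma deg_all (t : T) (v : V t) : (G t).degree v = vd t (nch t) v := by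
  by_cases h : v = rt t
  · rw [h, deg_root, vd_rt]
  · exact deg_ne t _ v h

/-- the tree property -/
lemma isTree (t : T) : (G t).IsTree := by
  classical
  rw [SimpleGraph.isTree_iff_connected_and_card]
  refine ⟨conn t, ?_⟩
  have key : ∀ t : T, ∑ v : V t, (G t).degree v + 2 = 2 * size t := by
    intro t
    induction t with
    | one b =>
      have h := deg_root (.one b)
      have : ∑ v : V (.one b), (G (.one b)).degree v = 0 := by
        refine Finset.sum_eq_zero ?_
        intro v _
        exact h
      rw [this]; rfl
    | att s t ihs iht =>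
      have : ∑ v : V (.att s t), (G (.att s t)).degree v =
          ∑ x : V s, (G (.att s t)).degree (il x) + ∑ y : V t, (G (.att s t)).degree (ir y) :=
        Fintype.sum_sum_type (fun v : V s ⊕ V t => (G (.att s t)).degree (show V (.att s t) from v))
      rw [this]
      simp only [deg_il, deg_ir, Finset.sum_add_distrib, Finset.sum_ite_eq', Finset.mem_univ,
        if_true]
      change _ = 2 * (size s + size t)
      omega
  have h1 := key t
  have h2 := (G t).sum_degrees_eq_twice_card_edges
  rw [h2] at h1
  rw [Nat.card_eq_fintype_card, Nat.card_eq_fintype_card, card_V]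
  have h3 : (G t).edgeFinset.card = Fintype.card (G t).edgeSet := by
    rw [SimpleGraph.edgeFinset_card]
  rw [h3] at h1
  have h4 : Fintype.card (G t).edgeSet + 1 = size t := by omega
  convert h4

/-- neighbours of the root have their degree in `chd` -/
lemma mem_chd : ∀ (t : T) (D : ℕ) (x : V t), (G t).Adj (rt t) x → vd t D x ∈ chd t
  | .one _, _, _, h => absurd h (fun h : (⊥ : SimpleGraph Unit).Adj _ _ => h)
  | .att s t, D, x, h => by
      rcases casesV x with ⟨y, rfl⟩ | ⟨y, rfl⟩
      · have := mem_chd s D y (adj_ll.1 h)
        exact List.mem_cons_of_mem _ this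
      · have := (adj_lr.1 h).2
        rw [this, vd_ir, vd_rt]
        exact List.mem_cons_self

/-- distinct virtual degrees at neighbours -/
lemma distinct : ∀ (t : T) (D : ℕ), good t D → ∀ v : V t, (v = rt t → (chd t).Nodup) →
    ∀ x y, (G t).Adj v x → (G t).Adj v y → x ≠ y → vd t D x ≠ vd t D y
  | .one _, _, _, _, _, _, _, h, _, _ => absurd h (fun h : (⊥ : SimpleGraph Unit).Adj _ _ => h)
  | .att s t, D, hg, v, hv, x, y, hx, hy, hxy => by
      obtain ⟨g1, g2, g3, _⟩ := hg
      rcases casesV v with ⟨v', rfl⟩ | ⟨v', rfl⟩
      · have hv' : v' = rt s → (chd s).Nodup := by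
          intro e
          have h1 : (chd (.att s t)).Nodup := hv (by rw [e]; rfl)
          exact (List.nodup_cons.1 h1).2
        rcases casesV x with ⟨x', rfl⟩ | ⟨x', rfl⟩
        · rcases casesV y with ⟨y', rfl⟩ | ⟨y', rfl⟩
          · exact distinct s D g1 v' hv' x' y' (adj_ll.1 hx) (adj_ll.1 hy)
              (fun e => hxy (by rw [e]))
          · obtain ⟨e1, e2⟩ := adj_lr.1 hy
            have h1 : (chd (.att s t)).Nodup := hv (by rw [e1]; rfl)
            have h2 := (List.nodup_cons.1 h1).1
            have h3 := adj_ll.1 hx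
            rw [e1] at h3
            have h4 := mem_chd s D x' h3
            rw [vd_il, vd_ir, e2, vd_rt]
            intro e
            rw [e] at h4
            exact h2 h4
        · obtain ⟨e1, e2⟩ := adj_lr.1 hx
          rcases casesV y with ⟨y', rfl⟩ | ⟨y', rfl⟩
          · have h1 : (chd (.att s t)).Nodup := hv (by rw [e1]; rfl)
            have h2 := (List.nodup_cons.1 h1).1
            have h3 := adj_ll.1 hy
            rw [e1] at h3
            have h4 := mem_chd s D y' h3
            rw [vd_il, vd_ir, e2, vd_rt]
            intro e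
            rw [← e] at h4
            exact h2 h4
          · obtain ⟨_, e3⟩ := adj_lr.1 hy
            exact absurd (by rw [e2, e3]) hxy
      · have hv' : v' = rt t → (chd t).Nodup := fun _ => (List.nodup_cons.1 g3).2
        have hD := (List.nodup_cons.1 g3).1
        rcases casesV x with ⟨x', rfl⟩ | ⟨x', rfl⟩
        · obtain ⟨e1, e2⟩ := adj_rl.1 hx
          rcases casesV y with ⟨y', rfl⟩ | ⟨y', rfl⟩
          · obtain ⟨e3, _⟩ := adj_rl.1 hy
            exact absurd (by rw [e1, e3]) hxy
          · have h3 := adj_rr.1 hy
            rw [e2] at h3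
            have h4 := mem_chd t (nch t + 1) y' h3
            rw [vd_il, vd_ir, e1, vd_rt]
            intro e
            rw [← e] at h4
            exact hD h4
        · rcases casesV y with ⟨y', rfl⟩ | ⟨y', rfl⟩
          · obtain ⟨e1, e2⟩ := adj_rl.1 hy
            have h3 := adj_rr.1 hx
            rw [e2] at h3
            have h4 := mem_chd t (nch t + 1) x' h3
            rw [vd_il, vd_ir, e1, vd_rt]
            intro e
            rw [e] at h4
            exact hD h4
          · exact distinct t (nch t + 1) g2 v' hv' x' y' (adj_rr.1 hx) (adj_rr.1 hy)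
              (fun e => hxy (by rw [e]))

/-- no two adjacent vertices have the label `true` -/
lemma indep : ∀ (t : T) (D : ℕ), good t D → ∀ x y : V t, (G t).Adj x y →
    ¬ (L t x = true ∧ L t y = true)
  | .one _, _, _, _, _, h => absurd h (fun h : (⊥ : SimpleGraph Unit).Adj _ _ => h)
  | .att s t, D, hg, x, y, h => by
      obtain ⟨g1, g2, _, g4⟩ := hg
      rcases casesV x with ⟨x', rfl⟩ | ⟨x', rfl⟩ <;> rcases casesV y with ⟨y', rfl⟩ | ⟨y', rfl⟩
      · exact indep s D g1 x' y' (adj_ll.1 h)
      · obtain ⟨e1, e2⟩ := adj_lr.1 h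
        rw [L_il, L_ir, e1, e2, L_rt, L_rt]
        exact g4
      · obtain ⟨e1, e2⟩ := adj_rl.1 h
        rw [L_il, L_ir, e1, e2, L_rt, L_rt]
        exact fun h => g4 ⟨h.2, h.1⟩
      · exact indep t _ g2 x' y' (adj_rr.1 h)

end Pool.Agent.X54.RT
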