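import Mathlib
import Pool.Agent.X54.RT
import Pool.Agent.X54.HI2
set_option autoImplicit false

namespace Pool.Agent.X54.HI

open SimpleGraph Finset Pool.Agent.X54.RT

/-- a root with label `b` and the given children -/
def nd (b : Bool) (l : List T) : T := l.foldl T.att (T.one b)

def L1 : T := .one true
def P2out : T := nd false [L1]
def P2in : T := nd true [P2out]
def T3out : T := nd false [L1, P2in]
def T3in4 : T := nd true [T3out, P2out]
def T4out : T := nd false [L1, P2in, T3in4]
def T4out3 : T := nd false [L1, P2in, T4out]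
def T3in : T := nd true [T3out, T4out3]
def T4in5 : T := nd true [T4out, T3out, P2out]
def T5out : T := nd false [L1, P2in, T3in, T4in5]


instance decGood : (t : T) → (D : ℕ) → Decidable (good t D)
  | .one _, _ => isTrue trivial
  | .att s t, D => by
      haveI := decGood s D
      haveI := decGood t (nch t + 1)
      exact inferInstanceAs (Decidable (good s D ∧ good t (nch t + 1) ∧ (D :: chd t).Nodup ∧
        ¬ (lab s = true ∧ lab t = true)))

def A (X : T) : T := nd false [L1, P2in, T3in, X]
def B (X : T) : T := nd false [L1, P2in, T3in, X]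
def C (X : T) : T := nd true [T4out, T3out, X]
def E (X : T) : T := nd false [L1, P2in, T3in, T5out, X]
def F (X : T) : T := nd false [L1, P2in, T3in, T5out, X]

/-- the periodic tree: below a vertex of degree 4 of the independent set -/
def U : ℕ → T
  | 0 => T4in5
  | k + 1 => C (F (E (C (B (A (U k))))))

/-- the whole tree -/
def W (k : ℕ) : T := nd false [L1, P2in, T3in, T5out, U k]

lemma U_basic (k : ℕ) : lab (U k) = true ∧ nch (U k) = 3 ∧ size (U k) = 21 + 254 * k ∧
    cnt (U k) = 13 + 158 * k ∧ (5 :: chd (U k)).Nodup ∧ good (U k) 4 := by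
  induction k with
  | zero => exact ⟨rfl, rfl, rfl, rfl, by decide, by decide⟩
  | succ k ih =>
    obtain ⟨h1, h2, h3, h4, h5, h6⟩ := ih
    have hA : good (A (U k)) 5 := by
      refine ⟨by decide, ?_, h5, fun h => absurd h.1 (by decide)⟩
      rw [h2]; exact h6
    have hB : good (B (A (U k))) 5 :=
      ⟨by decide, hA, show (5 :: (nch (U k) + 1) :: [3, 2, 1]).Nodup by rw [h2]; decide,
        fun h => absurd h.1 (by decide)⟩
    have hC : good (C (B (A (U k)))) 4 :=
      ⟨by decide, hB, show (4 :: [5, 3, 2, 1]).Nodup by decide, fun h => absurd h.2 (show ¬ (false = true) by decide)⟩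
    have hE : good (E (C (B (A (U k))))) 6 :=
      ⟨by decide, hC, show (6 :: [5, 3, 4]).Nodup by decide, fun h => absurd h.1 (by decide)⟩
    have hF : good (F (E (C (B (A (U k)))))) 6 :=
      ⟨by decide, hE, show (6 :: [4, 5, 3, 2, 1]).Nodup by decide,
        fun h => absurd h.1 (by decide)⟩
    have hU : good (U (k + 1)) 4 :=
      ⟨by decide, hF, show (4 :: [6, 5, 3, 2, 1]).Nodup by decide,
        fun h => absurd h.2 (show ¬ (false = true) by decide)⟩
    refine ⟨rfl, rfl, ?_, ?_, show (5 :: [6, 3, 4]).Nodup by decide, hU⟩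
    · have e : size (U (k + 1)) = 254 + size (U k) := by
        change 1 + 13 + 5 + (1 + 1 + 3 + 24 + 50 + (1 + 1 + 3 + 24 + 50 + (1 + 13 + 5 +
          (1 + 1 + 3 + 24 + (1 + 1 + 3 + 24 + size (U k)))))) = _
        omega
      rw [e, h3]; omega
    · have e : cnt (U (k + 1)) = 158 + cnt (U k) := by
        change 1 + 8 + 3 + (0 + 1 + 2 + 15 + 31 + (0 + 1 + 2 + 15 + 31 + (1 + 8 + 3 +
          (0 + 1 + 2 + 15 + (0 + 1 + 2 + 15 + cnt (U k)))))) = _
        omega
      rw [e, h4]; omega

lemma W_basic (k : ℕ) : size (W k) = 100 + 254 * k ∧ cnt (W k) = 62 + 158 * k ∧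
    nch (W k) = 5 ∧ (chd (W k)).Nodup ∧ good (W k) 5 := by
  obtain ⟨h1, h2, h3, h4, h5, h6⟩ := U_basic k
  refine ⟨?_, ?_, rfl, ?_, ?_⟩
  · change 1 + 1 + 3 + 24 + 50 + size (U k) = _
    rw [h3]; omega
  · change 0 + 1 + 2 + 15 + 31 + cnt (U k) = _
    rw [h4]; omega
  · change ((nch (U k) + 1) :: [5, 3, 2, 1]).Nodup
    rw [h2]; decide
  · refine ⟨by decide, ?_, h5, fun h => absurd h.1 (by decide)⟩
    rw [h2]; exact h6

open Classical in
/-- **Lower bound**: highly irregular trees with `n = 100 + 254 k` vertices and an independent set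
of size `62 + 158 k = (79 n - 26) / 127`. -/
theorem lower (k : ℕ) : ∃ (X : Type) (_ : Fintype X) (G : SimpleGraph X), G.IsTree ∧
    HighlyIrregular G ∧ Fintype.card X = 100 + 254 * k ∧
    ∃ S : Finset X, (∀ u ∈ S, ∀ v ∈ S, ¬ G.Adj u v) ∧ S.card = 62 + 158 * k := by
  obtain ⟨h1, h2, h3, h4, h5⟩ := W_basic k
  refine ⟨V (W k), inferInstance, G (W k), isTree (W k), ?_, ?_, ?_⟩
  · intro v x y hx hy hxy
    rw [deg_all, deg_all, h3]
    exact distinct (W k) 5 h5 v (fun _ => h4) x y hx hy hxy
  · rw [card_V, h1]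
  · refine ⟨Finset.univ.filter (fun v => L (W k) v = true), ?_, ?_⟩
    · intro u hu v hv huv
      exact indep (W k) 5 h5 u v huv ⟨(Finset.mem_filter.1 hu).2, (Finset.mem_filter.1 hv).2⟩
    · rw [card_L, h2]

end Pool.Agent.X54.HI
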