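import Mathlib

set_option autoImplicit false

/-! Tools for explicit small graphs on `Fin n`: a computed distance function. -/

namespace Pool.Agent.X54.DistFin

open SimpleGraph

/-- If `D` satisfies the three local conditions below then `G` is connected and `D` is the
distance function of `G`. -/
theorem dist_eq {n : ℕ} (G : SimpleGraph (Fin n)) (D : Fin n → Fin n → ℕ)
    (h0 : ∀ u, D u u = 0)
    (h1 : ∀ u v w, G.Adj v w → D u w ≤ D u v + 1)
    (h2 : ∀ u v, u ≠ v → ∃ w, G.Adj w v ∧ D u w + 1 = D u v) :
    ∀ u v, G.Reachable u v ∧ G.dist u v = D u v := by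
  have up : ∀ k u v, D u v = k → G.Reachable u v ∧ G.dist u v ≤ k := by
    intro k
    induction k with
    | zero =>
      intro u v hk
      by_cases huv : u = v
      · subst huv
        exact ⟨Reachable.refl u, by simp⟩
      · obtain ⟨w, _, hw⟩ := h2 u v huv
        omega
    | succ k ih =>
      intro u v hk
      by_cases huv : u = v
      · subst huv
        exact ⟨Reachable.refl u, by simp⟩
      · obtain ⟨w, hwv, hw⟩ := h2 u v huv
        obtain ⟨hr, hd⟩ := ih u w (by omega)
        refine ⟨hr.trans hwv.reachable, ?_⟩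
        obtain ⟨p, hp⟩ := hr.exists_walk_length_eq_dist
        have := G.dist_le (p.concat hwv)
        rw [Walk.length_concat, hp] at this
        omega
  have low : ∀ (x u v : Fin n) (p : G.Walk u v), D x v ≤ D x u + p.length := by
    intro x u v p
    induction p with
    | nil => simp
    | cons h q ih =>
      have := h1 x _ _ h
      rw [Walk.length_cons]
      omega
  intro u v
  obtain ⟨hr, hd⟩ := up _ u v rfl
  refine ⟨hr, le_antisymm hd ?_⟩
  obtain ⟨p, hp⟩ := hr.exists_walk_length_eq_dist
  have := low u u v p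
  rw [h0, hp] at this
  omega

/-- Distance in the tree on `ℕ` with parent function `par` (`par u < u`), with fuel. -/
def treeD (par : ℕ → ℕ) : ℕ → ℕ → ℕ → ℕ
  | 0, _, _ => 0
  | k + 1, u, v => if u = v then 0 else if v < u then 1 + treeD par k (par u) v
      else 1 + treeD par k u (par v)

/-- The tree on `Fin n` with parent function `par`. -/
def treeG (n : ℕ) (par : ℕ → ℕ) : SimpleGraph (Fin n) where
  Adj u v := (u.val ≠ 0 ∧ par u.val = v.val ∧ v.val < u.val) ∨
    (v.val ≠ 0 ∧ par v.val = u.val ∧ u.val < v.val)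
  symm := ⟨fun u v h => h.symm⟩
  loopless := ⟨fun u h => by omega⟩

instance (n : ℕ) (par : ℕ → ℕ) : DecidableRel (treeG n par).Adj := fun u v =>
  inferInstanceAs (Decidable ((u.val ≠ 0 ∧ par u.val = v.val ∧ v.val < u.val) ∨
    (v.val ≠ 0 ∧ par v.val = u.val ∧ u.val < v.val)))

/-- Decidable check that `treeD` is the distance of `treeG`. -/
def check (n : ℕ) (par : ℕ → ℕ) : Bool :=
  (List.range n).all fun u => (List.range n).all fun v =>
    (if u = v then true else treeD par (2 * n) u v != 0) &&
    (if v = 0 then true else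
      decide (par v < v) &&
      decide (treeD par (2 * n) u v ≤ treeD par (2 * n) u (par v) + 1) &&
      decide (treeD par (2 * n) u (par v) ≤ treeD par (2 * n) u v + 1)) &&
    (if u = v then true else
      (decide (v ≠ 0) && decide (treeD par (2 * n) u (par v) + 1 = treeD par (2 * n) u v)) ||
      (List.range n).any fun w => decide (w ≠ 0) && decide (par w = v) &&
        decide (treeD par (2 * n) u w + 1 = treeD par (2 * n) u v))

theorem treeG_dist (n : ℕ) (par : ℕ → ℕ) (h : check n par = true) :
    ∀ u v : Fin n, (treeG n par).Reachable u v ∧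
      (treeG n par).dist u v = treeD par (2 * n) u.val v.val := by
  have h' : ∀ u < n, ∀ v < n,
      (u = v ∨ treeD par (2 * n) u v ≠ 0) ∧
      (v = 0 ∨ (par v < v ∧ treeD par (2 * n) u v ≤ treeD par (2 * n) u (par v) + 1 ∧
        treeD par (2 * n) u (par v) ≤ treeD par (2 * n) u v + 1)) ∧
      (u = v ∨ (v ≠ 0 ∧ treeD par (2 * n) u (par v) + 1 = treeD par (2 * n) u v) ∨
        ∃ w < n, w ≠ 0 ∧ par w = v ∧ treeD par (2 * n) u w + 1 = treeD par (2 * n) u v) := by
    intro u hu v hv
    simp only [check, List.all_eq_true, List.mem_range] at h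
    have h3 := h u hu v hv
    simp only [Bool.and_eq_true] at h3
    obtain ⟨⟨ha, hb⟩, hc⟩ := h3
    refine ⟨?_, ?_, ?_⟩
    · by_cases huv : u = v
      · exact Or.inl huv
      · right; simpa [huv] using ha
    · by_cases hv0 : v = 0
      · exact Or.inl hv0
      · right
        simp only [hv0, if_false, Bool.and_eq_true, decide_eq_true_eq] at hb
        exact ⟨hb.1.1, hb.1.2, hb.2⟩
    · by_cases huv : u = v
      · exact Or.inl huv
      · right
        simp only [huv, if_false, Bool.or_eq_true, Bool.and_eq_true, decide_eq_true_eq,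
          List.any_eq_true, List.mem_range] at hc
        rcases hc with hc | ⟨w, hw, hc⟩
        · exact Or.inl hc
        · exact Or.inr ⟨w, hw, hc.1.1, hc.1.2, hc.2⟩
  refine dist_eq (treeG n par) (fun u v => treeD par (2 * n) u.val v.val) ?_ ?_ ?_
  · intro u
    have : 2 * n = (2 * n - 1) + 1 := by have := u.isLt; omega
    show treeD par (2 * n) u.val u.val = 0
    rw [this]
    simp [treeD]
  · intro u v w hvw
    show treeD par (2 * n) u.val w.val ≤ treeD par (2 * n) u.val v.val + 1
    rcases hvw with ⟨h1, h2, h3⟩ | ⟨h1, h2, h3⟩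
    · have := (h' u u.isLt v v.isLt).2.1
      rcases this with h4 | h4
      · exact absurd h4 h1
      · rw [h2] at h4; exact h4.2.2
    · have := (h' u u.isLt w w.isLt).2.1
      rcases this with h4 | h4
      · exact absurd h4 h1
      · rw [h2] at h4; exact h4.2.1
  · intro u v huv
    have hne : u.val ≠ v.val := fun hh => huv (Fin.ext hh)
    rcases (h' u u.isLt v v.isLt).2.2 with h3 | ⟨h3, h4⟩ | ⟨w, hw, h3, h4, h5⟩
    · exact absurd h3 hne
    · have h5 : par v.val < v.val := by
        rcases (h' u u.isLt v v.isLt).2.1 with h6 | h6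
        · exact absurd h6 h3
        · exact h6.1
      refine ⟨⟨par v.val, h5.trans v.isLt⟩, Or.inr ⟨h3, rfl, h5⟩, h4⟩
    · refine ⟨⟨w, hw⟩, Or.inl ⟨h3, h4, ?_⟩, h5⟩
      rcases (h' u u.isLt w hw).2.1 with h6 | h6
      · exact absurd h6 h3
      · rw [h4] at h6; exact h6.1

theorem treeG_isTree (n : ℕ) (par : ℕ → ℕ) (hn : 0 < n) (h : check n par = true)
    (hc : (treeG n par).edgeFinset.card + 1 = n) : (treeG n par).IsTree := by
  rw [isTree_iff_connected_and_card]
  haveI : Nonempty (Fin n) := ⟨⟨0, hn⟩⟩
  refine ⟨⟨fun u v => (treeG_dist n par h u v).1⟩, ?_⟩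
  rw [Nat.card_eq_fintype_card, Nat.card_eq_fintype_card, Fintype.card_fin,
    ← SimpleGraph.edgeFinset_card]
  exact hc

end Pool.Agent.X54.DistFin
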