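import Mathlib

/-! Four-component truncated ring and the transfer recursion for counting vertex subsets of
trees that induce at most one edge, together with their sizes. -/

set_option autoImplicit false

namespace Pool.Agent.X54.NearA

open Finset

/-- `a + b δ + (c + d δ) ε` with `δ² = ε² = 0`. -/
@[ext] structure Q4 where
  a : ℕ
  b : ℕ
  c : ℕ
  d : ℕ

namespace Q4

def add (p q : Q4) : Q4 := ⟨p.a+q.a, p.b+q.b, p.c+q.c, p.d+q.d⟩
def mul (p q : Q4) : Q4 :=
  ⟨p.a*q.a, p.a*q.b+p.b*q.a, p.a*q.c+p.c*q.a, p.a*q.d+p.d*q.a+p.b*q.c+p.c*q.b⟩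
def eps (q : Q4) : Q4 := ⟨0,0,q.a,q.b⟩

instance : Zero Q4 := ⟨⟨0,0,0,0⟩⟩
instance : One Q4 := ⟨⟨1,0,0,0⟩⟩
instance : Add Q4 := ⟨Q4.add⟩
instance : Mul Q4 := ⟨Q4.mul⟩

@[simp] lemma zero_a : (0 : Q4).a = 0 := rfl
@[simp] lemma zero_b : (0 : Q4).b = 0 := rfl
@[simp] lemma zero_c : (0 : Q4).c = 0 := rfl
@[simp] lemma zero_d : (0 : Q4).d = 0 := rfl
@[simp] lemma one_a : (1 : Q4).a = 1 := rfl
@[simp] lemma one_b : (1 : Q4).b = 0 := rfl
@[simp] lemma one_c : (1 : Q4).c = 0 := rfl
@[simp] lemma one_d : (1 : Q4).d = 0 := rfl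
@[simp] lemma add_a (p q : Q4) : (p + q).a = p.a + q.a := rfl
@[simp] lemma add_b (p q : Q4) : (p + q).b = p.b + q.b := rfl
@[simp] lemma add_c (p q : Q4) : (p + q).c = p.c + q.c := rfl
@[simp] lemma add_d (p q : Q4) : (p + q).d = p.d + q.d := rfl
@[simp] lemma mul_a (p q : Q4) : (p * q).a = p.a * q.a := rfl
@[simp] lemma mul_b (p q : Q4) : (p * q).b = p.a*q.b+p.b*q.a := rfl
@[simp] lemma mul_c (p q : Q4) : (p * q).c = p.a*q.c+p.c*q.a := rfl
@[simp] lemma mul_d (p q : Q4) : (p * q).d = p.a*q.d+p.d*q.a+p.b*q.c+p.c*q.b := rfl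

instance : CommSemiring Q4 where
  add_assoc p q r := by ext <;> simp <;> ring
  zero_add p := by ext <;> simp
  add_zero p := by ext <;> simp
  add_comm p q := by ext <;> simp <;> ring
  mul_assoc p q r := by ext <;> simp <;> ring
  one_mul p := by ext <;> simp
  mul_one p := by ext <;> simp
  left_distrib p q r := by ext <;> simp <;> ring
  right_distrib p q r := by ext <;> simp <;> ring
  zero_mul p := by ext <;> simp
  mul_zero p := by ext <;> simp
  mul_comm p q := by ext <;> simp <;> ring
  nsmul := nsmulRec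

def X : Q4 := ⟨1,1,0,0⟩
def E : Q4 := ⟨0,0,1,0⟩

lemma X_pow (m : ℕ) : X ^ m = ⟨1, m, 0, 0⟩ := by
  induction m with
  | zero => rfl
  | succ m ih => rw [pow_succ, ih]; ext <;> simp [X]; ring

lemma E_sq : E * E = 0 := by ext <;> simp [E]

lemma E_pow_two (m : ℕ) : E ^ (m + 2) = 0 := by
  rw [pow_add, pow_two, E_sq, mul_zero]

lemma E_mul (q : Q4) : E * q = q.eps := by ext <;> simp [E, eps]

def cHom : Q4 →+ ℕ := ⟨⟨Q4.c, rfl⟩, fun _ _ => rfl⟩
def dHom : Q4 →+ ℕ := ⟨⟨Q4.d, rfl⟩, fun _ _ => rfl⟩

lemma XE_c (m e : ℕ) : (X ^ m * E ^ e).c = if e = 1 then 1 else 0 := by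
  rcases e with _ | _ | e
  · simp [X_pow]
  · simp [X_pow, E]
  · simp [E_pow_two]

lemma XE_d (m e : ℕ) : (X ^ m * E ^ e).d = if e = 1 then m else 0 := by
  rcases e with _ | _ | e
  · simp [X_pow]
  · simp [X_pow, E]
  · simp [E_pow_two]

end Q4

section Z
variable {R : Type*} [CommSemiring R]

/-- weight of a subset `S` of `{0,…,k-1}`: vertex weights `x`, `y`, and a factor `e` for each
`i ∈ S`, `i ≠ 0` with `p i ∈ S`. -/
def wt (e : R) (p : ℕ → ℕ) (x y : ℕ → R) (k : ℕ) (S : Finset ℕ) : R :=
  (∏ i ∈ range k, if i ∈ S then y i else x i) *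
    ∏ i ∈ range k, if i ≠ 0 ∧ i ∈ S ∧ p i ∈ S then e else 1

def Z (e : R) (p : ℕ → ℕ) (x y : ℕ → R) (k : ℕ) : R :=
  ∑ S ∈ (range k).powerset, wt e p x y k S

lemma Z_one (e : R) (p : ℕ → ℕ) (x y : ℕ → R) : Z e p x y 1 = x 0 + y 0 := by
  have : (range 1).powerset = {∅, {0}} := by decide
  rw [Z, this, sum_pair (by decide)]
  simp [wt]

lemma Z_succ (e : R) (p : ℕ → ℕ) (x y : ℕ → R) (k : ℕ) (hk : 0 < k)
    (hp : ∀ i, 0 < i → i ≤ k → p i < i) :
    Z e p x y (k + 1) = Z e p (Function.update x (p k) (x (p k) * (x k + y k)))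
      (Function.update y (p k) (y (p k) * (x k + e * y k))) k := by
  have hins : range (k + 1) = insert k (range k) := by
    rw [range_add_one]
  rw [Z, Z, hins, sum_powerset_insert (by simp), ← sum_add_distrib]
  apply sum_congr rfl
  intro S hS
  have hS' : S ⊆ range k := mem_powerset.1 hS
  have hkS : k ∉ S := fun h => by simpa using hS' h
  have hpk : p k < k := hp k hk le_rfl
  -- first term
  have h1 : wt e p x y (k + 1) S = wt e p x y k S * x k := by
    unfold wt
    rw [prod_range_succ, prod_range_succ]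
    simp only [hkS, if_false, false_and, and_false]
    ring
  have h2 : wt e p x y (k + 1) (insert k S) =
      wt e p x y k S * (y k * if p k ∈ S then e else 1) := by
    unfold wt
    rw [prod_range_succ, prod_range_succ]
    have ha : ∏ i ∈ range k, (if i ∈ insert k S then y i else x i) =
        ∏ i ∈ range k, (if i ∈ S then y i else x i) := by
      apply prod_congr rfl
      intro i hi
      have : i ≠ k := (mem_range.1 hi).ne
      simp [this]
    have hb : ∏ i ∈ range k, (if i ≠ 0 ∧ i ∈ insert k S ∧ p i ∈ insert k S then e else 1) =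
        ∏ i ∈ range k, (if i ≠ 0 ∧ i ∈ S ∧ p i ∈ S then e else 1) := by
      apply prod_congr rfl
      intro i hi
      have hik := mem_range.1 hi
      have : i ≠ k := hik.ne
      by_cases h0 : i = 0
      · simp [h0]
      · have : p i < i := hp i (Nat.pos_of_ne_zero h0) hik.le
        have h3 : p i ≠ k := by omega
        simp [hik.ne, h3]
    rw [ha, hb]
    have h4 : p k ≠ k := hpk.ne
    simp only [mem_insert, true_or, if_true, h4, false_or, true_and, hk.ne', ne_eq,
      not_false_eq_true]
    ring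
  have h3 : wt e p (Function.update x (p k) (x (p k) * (x k + y k)))
      (Function.update y (p k) (y (p k) * (x k + e * y k))) k S =
      wt e p x y k S * (if p k ∈ S then x k + e * y k else x k + y k) := by
    unfold wt
    have key : (∏ i ∈ range k, (if i ∈ S then
        Function.update y (p k) (y (p k) * (x k + e * y k)) i else
        Function.update x (p k) (x (p k) * (x k + y k)) i)) =
        (∏ i ∈ range k, (if i ∈ S then y i else x i)) *
          (if p k ∈ S then x k + e * y k else x k + y k) := by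
      rw [← mul_prod_erase (range k) _ (mem_range.2 hpk),
        ← mul_prod_erase (range k) (fun i => if i ∈ S then y i else x i) (mem_range.2 hpk)]
      have : ∏ i ∈ (range k).erase (p k), (if i ∈ S then
          Function.update y (p k) (y (p k) * (x k + e * y k)) i else
          Function.update x (p k) (x (p k) * (x k + y k)) i) =
          ∏ i ∈ (range k).erase (p k), (if i ∈ S then y i else x i) := by
        apply prod_congr rfl
        intro i hi
        have : i ≠ p k := (mem_erase.1 hi).1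
        simp [Function.update_of_ne this]
      rw [this]
      by_cases h : p k ∈ S <;> simp [h] <;> ring
    rw [key]
    ring
  rw [h1, h2, h3]
  by_cases h : p k ∈ S <;> simp [h] <;> ring

end Z

/-! ### The checker -/

def chk (A B : ℕ) : ℕ → List (Q4 × Q4) → Bool
  | 0, l => match l.head? with
    | none => false
    | some (x, y) => Nat.ble ((x.add y).d * A) ((x.add y).c * B)
  | k+1, l => (List.range (k+1)).all fun j =>
      match l[k+1]?, l[j]? with
      | some (u, v), some (x, y) =>
          chk A B k (l.set j (x.mul (u.add v), y.mul (u.add v.eps)))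
      | _, _ => false

def init (n : ℕ) : List (Q4 × Q4) := List.replicate n (⟨1,0,0,0⟩, ⟨1,1,0,0⟩)

lemma chk_sound (A B : ℕ) : ∀ (k : ℕ) (l : List (Q4 × Q4)), chk A B k l = true →
    ∀ (p : ℕ → ℕ), (∀ i, 0 < i → i ≤ k → p i < i) → ∀ (x y : ℕ → Q4),
    (∀ i ≤ k, l[i]? = some (x i, y i)) →
    (Z Q4.E p x y (k + 1)).d * A ≤ (Z Q4.E p x y (k + 1)).c * B := by
  intro k
  induction k with
  | zero =>
    intro l h p hp x y hxy
    have h0 := hxy 0 le_rfl
    rw [Z_one]
    unfold chk at h
    rw [List.head?_eq_getElem?, h0] at h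
    exact Nat.le_of_ble_eq_true h
  | succ k ih =>
    intro l h p hp x y hxy
    have hk1 := hxy (k+1) le_rfl
    have hpk : p (k+1) < k+1 := hp (k+1) (by omega) le_rfl
    have hj := hxy (p (k+1)) (by omega)
    unfold chk at h
    rw [List.all_eq_true] at h
    have h' := h (p (k+1)) (List.mem_range.2 hpk)
    rw [hk1, hj] at h'
    simp only at h'
    rw [Z_succ Q4.E p x y (k+1) (by omega) hp, Q4.E_mul]
    apply ih _ h' p (fun i hi hik => hp i hi (by omega))
    intro i hik
    rw [List.getElem?_set]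
    have hlen : p (k+1) < l.length := by
      by_contra hcon
      rw [List.getElem?_eq_none (by omega)] at hj
      exact absurd hj (by simp)
    by_cases hi : p (k+1) = i
    · subst hi
      simp only [if_true, hlen, Function.update_self]
      rfl
    · rw [if_neg hi, hxy i (by omega), Function.update_of_ne (Ne.symm hi),
        Function.update_of_ne (Ne.symm hi)]

lemma init_get (n i : ℕ) (h : i < n) : (init n)[i]? = some ((1 : Q4), Q4.X) := by
  unfold init
  rw [List.getElem?_replicate]
  simp [h]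
  exact ⟨rfl, rfl⟩

set_option maxRecDepth 100000 in
lemma chk6 : chk (2*6-5+2^3) (5*6-13+7*2^2) 5 (init 6) = true := by decide +kernel
set_option maxRecDepth 100000 in
lemma chk7 : chk (2*7-5+2^4) (5*7-13+8*2^3) 6 (init 7) = true := by decide +kernel
set_option maxRecDepth 100000 in
lemma chk8 : chk (2*8-5+2^5) (5*8-13+9*2^4) 7 (init 8) = true := by decide +kernel
set_option maxRecDepth 100000 in
lemma chk9 : chk (2*9-5+2^6) (5*9-13+10*2^5) 8 (init 9) = true := by decide +kernel

end Pool.Agent.X54.NearA
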