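import Pool.Agent.X54.NearA

/-! Counting nearly independent sets of a tree given by a parent function, and existence of
such a description. -/

set_option autoImplicit false
set_option linter.unusedSectionVars false

namespace Pool.Agent.X54.NearB

open Finset Pool.Agent.X54.NearA
open scoped Classical

/-- number of indices `i ∈ S`, `i ≠ 0`, `p i ∈ S` -/
noncomputable def eN (p : ℕ → ℕ) (S : Finset ℕ) : ℕ := (S.filter (fun i => i ≠ 0 ∧ p i ∈ S)).card

lemma wt_eq (p : ℕ → ℕ) (k : ℕ) (S : Finset ℕ) (hS : S ⊆ range k) :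
    wt Q4.E p (fun _ => 1) (fun _ => Q4.X) k S = Q4.X ^ S.card * Q4.E ^ eN p S := by
  unfold wt
  congr 1
  · rw [prod_ite]
    simp only [prod_const_one, mul_one, prod_const]
    congr 2
    ext i
    simp only [mem_filter, mem_range]
    exact ⟨fun h => h.2, fun h => ⟨mem_range.1 (hS h), h⟩⟩
  · rw [prod_ite]
    simp only [prod_const_one, mul_one, prod_const]
    unfold eN
    congr 2
    ext i
    simp only [mem_filter, mem_range, ne_eq]
    exact ⟨fun h => ⟨h.2.2.1, h.2.1, h.2.2.2⟩, fun h => ⟨mem_range.1 (hS h.1), h.2.1, h.1, h.2.2⟩⟩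

/-- subsets of `{0..k-1}` with exactly one edge -/
noncomputable def fam (p : ℕ → ℕ) (k : ℕ) : Finset (Finset ℕ) :=
  ((range k).powerset).filter (fun S => eN p S = 1)

lemma Z_c (p : ℕ → ℕ) (k : ℕ) :
    (Z Q4.E p (fun _ => 1) (fun _ => Q4.X) k).c = (fam p k).card := by
  have : (Z Q4.E p (fun _ => 1) (fun _ => Q4.X) k).c =
      Q4.cHom (Z Q4.E p (fun _ => 1) (fun _ => Q4.X) k) := rfl
  rw [this, Z, map_sum, fam, card_filter]
  apply sum_congr rfl
  intro S hS
  rw [wt_eq p k S (mem_powerset.1 hS)]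
  exact Q4.XE_c _ _

lemma Z_d (p : ℕ → ℕ) (k : ℕ) :
    (Z Q4.E p (fun _ => 1) (fun _ => Q4.X) k).d = ∑ S ∈ fam p k, S.card := by
  have : (Z Q4.E p (fun _ => 1) (fun _ => Q4.X) k).d =
      Q4.dHom (Z Q4.E p (fun _ => 1) (fun _ => Q4.X) k) := rfl
  rw [this, Z, map_sum, fam, sum_filter]
  apply sum_congr rfl
  intro S hS
  rw [wt_eq p k S (mem_powerset.1 hS)]
  exact Q4.XE_d _ _

/-! ### Graph side -/

variable {V : Type} [Fintype V]

/-- edges of `G` with both ends in `S` -/
noncomputable def ind (G : SimpleGraph V) (S : Finset V) : Finset (Sym2 V) :=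
  G.edgeFinset.filter (fun e => ∀ v ∈ e, v ∈ S)

lemma ncard_induce (G : SimpleGraph V) (S : Finset V) :
    (G.induce (S : Set V)).edgeSet.ncard = (ind G S).card := by
  have hinj : Function.Injective (Sym2.map (Subtype.val : ↥(S : Set V) → V)) :=
    Sym2.map.injective Subtype.val_injective
  rw [← Set.ncard_image_of_injective _ hinj, ← Set.ncard_coe_finset]
  congr 1
  ext e
  simp only [Set.mem_image, ind, coe_filter, SimpleGraph.mem_edgeFinset, Set.mem_ofPred_eq]
  constructor
  · rintro ⟨f, hf, rfl⟩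
    induction f using Sym2.ind with
    | _ a b =>
      rw [SimpleGraph.mem_edgeSet] at hf
      simp only [Sym2.map_mk, SimpleGraph.mem_edgeSet, Sym2.mem_iff]
      refine ⟨hf, ?_⟩
      rintro v (rfl | rfl)
      · exact a.2
      · exact b.2
  · rintro ⟨he, hv⟩
    induction e using Sym2.ind with
    | _ a b =>
      have ha : a ∈ S := hv a (by simp)
      have hb : b ∈ S := hv b (by simp)
      exact ⟨s(⟨a, ha⟩, ⟨b, hb⟩), he, rfl⟩

/-- `T` is described by the enumeration `e` and the parent function `p` -/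
structure Desc (T : SimpleGraph V) (n : ℕ) (e : Fin n ≃ V) (p : ℕ → ℕ) : Prop where
  lt : ∀ i, 0 < i → i < n → p i < i
  adj : ∀ i j : Fin n, i < j → (T.Adj (e i) (e j) ↔ p j = i)

noncomputable def NI (G : SimpleGraph V) : Finset (Finset V) :=
  univ.filter (fun S => (ind G S).card = 1)

/-- code of a vertex subset -/
noncomputable def code {n : ℕ} (e : Fin n ≃ V) (S : Finset V) : Finset ℕ :=
  (S.map e.symm.toEmbedding).map Fin.valEmbedding

lemma mem_code {n : ℕ} (e : Fin n ≃ V) (S : Finset V) (i : Fin n) :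
    (i : ℕ) ∈ code e S ↔ e i ∈ S := by
  unfold code
  simp only [mem_map, Equiv.coe_toEmbedding, Fin.valEmbedding_apply]
  constructor
  · rintro ⟨j, ⟨v, hv, rfl⟩, h⟩
    have : e.symm v = i := Fin.ext h
    rw [← this]
    simpa using hv
  · intro h
    exact ⟨i, ⟨e i, h, by simp⟩, rfl⟩

lemma code_subset {n : ℕ} (e : Fin n ≃ V) (S : Finset V) : code e S ⊆ range n := by
  intro i hi
  unfold code at hi
  simp only [mem_map, Fin.valEmbedding_apply] at hi
  obtain ⟨j, _, rfl⟩ := hi
  exact mem_range.2 j.2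

lemma card_code {n : ℕ} (e : Fin n ≃ V) (S : Finset V) : (code e S).card = S.card := by
  unfold code; simp

lemma code_injective {n : ℕ} (e : Fin n ≃ V) : Function.Injective (code e) := by
  intro S S' h
  exact map_injective _ (map_injective _ h)

lemma ind_card {T : SimpleGraph V} {n : ℕ} {e : Fin n ≃ V} {p : ℕ → ℕ} (hD : Desc T n e p)
    (S : Finset V) : (ind T S).card = eN p (code e S) := by
  symm
  unfold eN
  -- all indices here are `< n`
  have hlt : ∀ i ∈ (code e S).filter (fun i => i ≠ 0 ∧ p i ∈ code e S), i < n := by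
    intro i hi
    exact mem_range.1 (code_subset e S (mem_filter.1 hi).1)
  refine card_bij (fun i hi => s(e ⟨i, hlt i hi⟩, e ⟨p i, ?_⟩)) ?_ ?_ ?_
  · exact mem_range.1 (code_subset e S (mem_filter.1 hi).2.2)
  · intro i hi
    have hi' := mem_filter.1 hi
    have hpi : p i < i := hD.lt i (Nat.pos_of_ne_zero hi'.2.1) (hlt i hi)
    have hpn : p i < n := hpi.trans (hlt i hi)
    unfold ind
    rw [mem_filter, SimpleGraph.mem_edgeFinset, SimpleGraph.mem_edgeSet]
    constructor
    · apply SimpleGraph.Adj.symm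
      exact (hD.adj ⟨p i, hpn⟩ ⟨i, hlt i hi⟩ hpi).2 rfl
    · intro v hv
      rw [Sym2.mem_iff] at hv
      rcases hv with rfl | rfl
      · exact (mem_code e S ⟨i, hlt i hi⟩).1 hi'.1
      · exact (mem_code e S ⟨p i, hpn⟩).1 hi'.2.2
  · intro i hi j hj hij
    have hi' := mem_filter.1 hi
    have hj' := mem_filter.1 hj
    have hpi : p i < i := hD.lt i (Nat.pos_of_ne_zero hi'.2.1) (hlt i hi)
    have hpj : p j < j := hD.lt j (Nat.pos_of_ne_zero hj'.2.1) (hlt j hj)
    simp only [Sym2.eq_iff, EmbeddingLike.apply_eq_iff_eq, Fin.mk.injEq] at hij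
    omega
  · intro f hf
    unfold ind at hf
    rw [mem_filter] at hf
    obtain ⟨hf1, hf2⟩ := hf
    induction f using Sym2.ind with
    | _ a b =>
      rw [SimpleGraph.mem_edgeFinset, SimpleGraph.mem_edgeSet] at hf1
      have ha : a ∈ S := hf2 a (by simp)
      have hb : b ∈ S := hf2 b (by simp)
      -- wlog
      have main : ∀ i j : Fin n, i < j → e i ∈ S → e j ∈ S → T.Adj (e i) (e j) →
          ∃ (k : ℕ) (hk : k ∈ (code e S).filter (fun i => i ≠ 0 ∧ p i ∈ code e S)),
            s(e ⟨k, hlt k hk⟩, e ⟨p k, mem_range.1 (code_subset e S (mem_filter.1 hk).2.2)⟩)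
              = s(e i, e j) := by
        intro i j hij hi hj hadj
        have hpj := (hD.adj i j hij).1 hadj
        have hj0 : (j : ℕ) ≠ 0 := by have := Fin.lt_def.1 hij; omega
        have hk : (j : ℕ) ∈ (code e S).filter (fun i => i ≠ 0 ∧ p i ∈ code e S) := by
          rw [mem_filter]
          refine ⟨(mem_code e S j).2 hj, hj0, ?_⟩
          rw [hpj]
          exact (mem_code e S i).2 hi
        refine ⟨j, hk, ?_⟩
        rw [Sym2.eq_swap]
        congr 2
        exact Fin.ext hpj
      obtain ⟨i, rfl⟩ := e.surjective a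
      obtain ⟨j, rfl⟩ := e.surjective b
      rcases lt_trichotomy i j with h | h | h
      · exact main i j h ha hb hf1
      · subst h; exact absurd hf1 (T.irrefl)
      · obtain ⟨k, hk, h2⟩ := main j i h hb ha hf1.symm
        exact ⟨k, hk, by rw [h2, Sym2.eq_swap]⟩

lemma code_surj {n : ℕ} (e : Fin n ≃ V) (U : Finset ℕ) (hU : U ⊆ range n) :
    ∃ S : Finset V, code e S = U := by
  refine ⟨univ.filter (fun v => ((e.symm v : Fin n) : ℕ) ∈ U), ?_⟩
  ext i
  constructor
  · intro hi
    have hin : i < n := mem_range.1 (code_subset e _ hi)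
    have := (mem_code e _ ⟨i, hin⟩).1 hi
    simpa using this
  · intro hi
    have hin : i < n := mem_range.1 (hU hi)
    apply (mem_code e _ ⟨i, hin⟩).2
    simpa using hi

lemma NI_map {T : SimpleGraph V} {n : ℕ} {e : Fin n ≃ V} {p : ℕ → ℕ} (hD : Desc T n e p) :
    (NI T).map ⟨code e, code_injective e⟩ = fam p n := by
  ext U
  simp only [mem_map, Function.Embedding.coeFn_mk, NI, fam, mem_filter, mem_univ, true_and,
    mem_powerset]
  constructor
  · rintro ⟨S, hS, rfl⟩
    exact ⟨code_subset e S, by rw [← ind_card hD]; exact hS⟩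
  · rintro ⟨h1, h2⟩
    obtain ⟨S, rfl⟩ := code_surj e U h1
    exact ⟨S, by rw [ind_card hD]; exact h2, rfl⟩

lemma NI_card {T : SimpleGraph V} {n : ℕ} {e : Fin n ≃ V} {p : ℕ → ℕ} (hD : Desc T n e p) :
    (NI T).card = (Z Q4.E p (fun _ => 1) (fun _ => Q4.X) n).c := by
  rw [Z_c, ← NI_map hD, card_map]

lemma NI_sum {T : SimpleGraph V} {n : ℕ} {e : Fin n ≃ V} {p : ℕ → ℕ} (hD : Desc T n e p) :
    ∑ S ∈ NI T, S.card = (Z Q4.E p (fun _ => 1) (fun _ => Q4.X) n).d := by
  rw [Z_d, ← NI_map hD, sum_map]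
  apply sum_congr rfl
  intro S _
  exact (card_code e S).symm

end Pool.Agent.X54.NearB
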