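import Pool.Agent.X54.NearB

/-! Existence of parent descriptions of trees; the values for `R_n`. -/

set_option autoImplicit false
set_option linter.unusedSectionVars false

namespace Pool.Agent.X54.NearC

open Finset Pool.Agent.X54.NearA Pool.Agent.X54.NearB
open scoped Classical

lemma exists_desc : ∀ (n : ℕ) (V : Type) [Fintype V] (T : SimpleGraph V),
    Fintype.card V = n + 1 → T.IsTree → ∃ (e : Fin (n+1) ≃ V) (p : ℕ → ℕ), Desc T (n+1) e p := by
  intro n
  induction n with
  | zero =>
    intro V _ T hc hT
    let e : Fin 1 ≃ V := (Fintype.equivFinOfCardEq hc).symm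
    refine ⟨e, fun _ => 0, ?_, ?_⟩
    · intro i hi hi1; omega
    · intro i j hij
      have h1 := i.2
      have h2 := j.2
      have h3 := Fin.lt_def.1 hij
      omega
  | succ n ih =>
    intro V _ T hc hT
    haveI : Nontrivial V := Fintype.one_lt_card_iff_nontrivial.1 (by omega)
    obtain ⟨u, hu⟩ := hT.exists_vert_degree_one_of_nontrivial
    -- the unique neighbour
    obtain ⟨w, hw⟩ : ∃ w, T.neighborFinset u = {w} := by
      rw [← card_eq_one, SimpleGraph.card_neighborFinset_eq_degree]; exact hu
    have huw : ∀ x, T.Adj u x ↔ x = w := by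
      intro x
      rw [← SimpleGraph.mem_neighborFinset, hw, mem_singleton]
    let V' : Type := ↥({u}ᶜ : Set V)
    have hc' : Fintype.card V' = n + 1 := by
      have : Fintype.card V' = Fintype.card V - Fintype.card ({u} : Set V) := by
        exact Fintype.card_compl_set _
      rw [this, hc]; simp
    have hT' : (T.induce ({u}ᶜ : Set V)).IsTree :=
      ⟨hT.1.induce_compl_singleton_of_degree_eq_one hu, hT.2.induce _⟩
    obtain ⟨e', p', hD⟩ := ih V' (T.induce ({u}ᶜ : Set V)) hc' hT'
    -- the extended enumeration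
    let f : Fin (n+1+1) → V := Fin.lastCases u (fun i => (e' i : V))
    have hf_last : f (Fin.last (n+1)) = u := by simp [f]
    have hf_cast : ∀ i : Fin (n+1), f i.castSucc = (e' i : V) := by intro i; simp [f]
    have hne : ∀ i : Fin (n+1), (e' i : V) ≠ u := fun i h => (e' i).2 h
    have hinj : Function.Injective f := by
      intro i j hij
      induction i using Fin.lastCases with
      | last =>
        induction j using Fin.lastCases with
        | last => rfl
        | cast j => rw [hf_last, hf_cast] at hij; exact absurd hij.symm (hne j)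
      | cast i =>
        induction j using Fin.lastCases with
        | last => rw [hf_last, hf_cast] at hij; exact absurd hij (hne i)
        | cast j =>
          rw [hf_cast, hf_cast] at hij
          have := e'.injective (Subtype.val_injective hij)
          rw [this]
    have hbij : Function.Bijective f :=
      (Fintype.bijective_iff_injective_and_card f).2 ⟨hinj, by rw [hc]; simp⟩
    let e : Fin (n+1+1) ≃ V := Equiv.ofBijective f hbij
    have hwu : w ≠ u := by
      intro h
      exact T.irrefl ((huw u).2 h.symm)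
    let iw : Fin (n+1) := e'.symm ⟨w, hwu⟩
    have hiw : (e' iw : V) = w := by simp [iw]
    refine ⟨e, Function.update p' (n+1) iw, ?_, ?_⟩
    · intro i hi0 hi
      by_cases h : i = n+1
      · subst h; simp only [Function.update_self]; exact iw.2
      · rw [Function.update_of_ne h]; exact hD.lt i hi0 (by omega)
    · intro i j hij
      have he : ∀ k, e k = f k := fun k => rfl
      rw [he, he]
      induction j using Fin.lastCases with
      | last =>
        induction i using Fin.lastCases with
        | last => exact absurd hij (lt_irrefl _)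
        | cast i =>
          rw [hf_last, hf_cast, SimpleGraph.adj_comm, huw]
          simp only [Fin.val_last, Function.update_self, Fin.val_castSucc]
          rw [← hiw]
          constructor
          · intro h
            have := e'.injective (Subtype.val_injective h)
            rw [this]
          · intro h
            have : iw = i := Fin.ext h
            rw [this]
      | cast j =>
        induction i using Fin.lastCases with
        | last =>
          have h1 := Fin.lt_def.1 hij
          simp at h1
          omega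
        | cast i =>
          rw [hf_cast, hf_cast]
          have h1 : (j.castSucc : ℕ) ≠ n + 1 := by
            have := j.2; simp only [Fin.val_castSucc]; omega
          rw [Function.update_of_ne h1]
          have h2 : i < j := by simpa using hij
          have := hD.adj i j h2
          simp only [Fin.val_castSucc]
          rw [← this]
          rfl

/-! ### `R_n` -/

/-- The tree `R_n`: centre `0` adjacent to every vertex except `2`, and `2` adjacent to `1`. -/
def Rgraph (n : ℕ) : SimpleGraph (Fin n) :=
  SimpleGraph.fromRel (fun i j => (i.val = 0 ∧ j.val ≠ 2) ∨ (i.val = 1 ∧ j.val = 2))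

/-- parent function of `R_n` -/
def pR (i : ℕ) : ℕ := if i = 2 then 1 else 0

lemma desc_R (n : ℕ) : Desc (Rgraph n) n (Equiv.refl _) pR := by
  constructor
  · intro i hi _
    unfold pR; split_ifs <;> omega
  · intro i j hij
    have h := Fin.lt_def.1 hij
    have hne : i ≠ j := ne_of_lt hij
    simp only [Rgraph, Equiv.refl_apply, SimpleGraph.fromRel_adj, pR]
    split_ifs with h2 <;> omega

open Q4 in
lemma Z_R (m : ℕ) : ∀ x0 y0 : Q4,
    Z E pR (Function.update (fun _ => 1) 0 x0) (Function.update (fun _ => X) 0 y0) (3 + m) =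
    Z E pR (Function.update (fun _ => 1) 0 (x0 * (1 + X) ^ m))
      (Function.update (fun _ => X) 0 (y0 * (1 + E * X) ^ m)) 3 := by
  induction m with
  | zero => intro x0 y0; simp
  | succ m ih =>
    intro x0 y0
    have hp : ∀ i, 0 < i → i ≤ 3 + m → pR i < i := by
      intro i hi _; unfold pR; split_ifs <;> omega
    have h3 : pR (3 + m) = 0 := by unfold pR; rw [if_neg (by omega)]
    have hne : 3 + m ≠ 0 := by omega
    rw [← add_assoc, Z_succ E pR _ _ (3 + m) (by omega) hp, h3]
    simp only [Function.update_self, Function.update_of_ne hne, Function.update_idem]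
    rw [ih, show x0 * (1 + X) * (1 + X) ^ m = x0 * (1 + X) ^ (m + 1) from by ring,
      show y0 * (1 + E * X) * (1 + E * X) ^ m = y0 * (1 + E * X) ^ (m + 1) from by ring]

open Q4 in
lemma Z_R3 (x0 y0 : Q4) :
    Z E pR (Function.update (fun _ => 1) 0 x0) (Function.update (fun _ => X) 0 y0) 3 =
    x0 * ((1 + X) + X * (1 + E * X)) + y0 * ((1 + X) + E * (X * (1 + E * X))) := by
  have hp : ∀ i, 0 < i → i ≤ 2 → pR i < i := by
    intro i hi _; unfold pR; split_ifs <;> omega
  have h2 : pR 2 = 1 := rfl
  have h1 : pR 1 = 0 := rfl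
  rw [show (3 : ℕ) = 2 + 1 from rfl, Z_succ E pR _ _ 2 (by omega) hp,
    show (2 : ℕ) = 1 + 1 from rfl, Z_succ E pR _ _ 1 (by omega) (fun i hi hi2 => hp i hi (by omega)),
    Z_one]
  simp [pR]

@[simp] lemma X_a : Q4.X.a = 1 := rfl
@[simp] lemma X_b : Q4.X.b = 1 := rfl
@[simp] lemma X_c : Q4.X.c = 0 := rfl
@[simp] lemma X_d : Q4.X.d = 0 := rfl
@[simp] lemma E_a : Q4.E.a = 0 := rfl
@[simp] lemma E_b : Q4.E.b = 0 := rfl
@[simp] lemma E_c : Q4.E.c = 1 := rfl
@[simp] lemma E_d : Q4.E.d = 0 := rfl

lemma pow21 (m : ℕ) : ((1 + Q4.X) ^ m).a = 2 ^ m ∧ 2 * ((1 + Q4.X) ^ m).b = m * 2 ^ m ∧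
    ((1 + Q4.X) ^ m).c = 0 ∧ ((1 + Q4.X) ^ m).d = 0 := by
  induction m with
  | zero => simp
  | succ m ih =>
    obtain ⟨h1, h2, h3, h4⟩ := ih
    rw [pow_succ]
    simp only [Q4.mul_a, Q4.mul_b, Q4.mul_c, Q4.mul_d, Q4.add_a, Q4.add_b, Q4.add_c, Q4.add_d,
      Q4.one_a, Q4.one_b, Q4.one_c, Q4.one_d, X_a, X_b, X_c, X_d, h1, h3, h4]
    refine ⟨by ring, ?_, by ring, by ring⟩
    generalize ((1 + Q4.X) ^ m).b = b at h2 ⊢
    rw [show 2 * (2 ^ m * (0 + 1) + b * (1 + 1)) = 2 * 2 ^ m + 2 * (2 * b) from by ring, h2]
    ring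

lemma pow1011 (m : ℕ) : (1 + Q4.E * Q4.X) ^ m = ⟨1, 0, m, m⟩ := by
  induction m with
  | zero => rfl
  | succ m ih =>
    rw [pow_succ, ih]
    ext <;> simp
    all_goals ring

lemma Z_R_vals (m : ℕ) :
    (Z Q4.E pR (fun _ => 1) (fun _ => Q4.X) (3 + m)).c = 2 ^ m + 2 * m + 1 ∧
    2 * (Z Q4.E pR (fun _ => 1) (fun _ => Q4.X) (3 + m)).d =
      (m + 4) * 2 ^ m + 2 * (5 * m + 2) := by
  have h := Z_R m 1 Q4.X
  rw [Function.update_eq_self_iff.2 rfl, Function.update_eq_self_iff.2 rfl, Z_R3, pow1011] at h
  rw [h]
  obtain ⟨h1, h2, h3, h4⟩ := pow21 m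
  simp only [Q4.mul_a, Q4.mul_b, Q4.mul_c, Q4.mul_d, Q4.add_a, Q4.add_b, Q4.add_c, Q4.add_d,
      Q4.one_a, Q4.one_b, Q4.one_c, Q4.one_d, X_a, X_b, X_c, X_d, E_a, E_b, E_c, E_d, h1, h3, h4]
  constructor
  · ring
  · generalize ((1 + Q4.X) ^ m).b = b at h2 ⊢
    generalize 2 ^ m = q at h2 ⊢
    nlinarith [h2]

end Pool.Agent.X54.NearC
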