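import Pool.Agent.X54.NearC

/-! The deficiency argument for trees other than `R_n`. -/

set_option autoImplicit false
set_option linter.unusedSectionVars false

namespace Pool.Agent.X54.NearD

open Finset Pool.Agent.X54.NearB Pool.Agent.X54.NearC
open scoped Classical

variable {V : Type} [Fintype V] (T : SimpleGraph V)

noncomputable def F (e : Sym2 V) : Finset (Finset V) := univ.filter (fun S => ind T S = {e})

noncomputable def A (a b : V) : Finset V :=
  univ.filter (fun w => (w ≠ a ∧ w ≠ b) ∧ ¬ (T.Adj a w ∨ T.Adj b w))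

noncomputable def B (a b : V) : Finset V :=
  univ.filter (fun w => (w ≠ a ∧ w ≠ b) ∧ (T.Adj a w ∨ T.Adj b w))

variable {T}

lemma mem_F {a b : V} (hab : T.Adj a b) (S : Finset V) : S ∈ F T s(a, b) ↔
    a ∈ S ∧ b ∈ S ∧ ∀ c ∈ S, ∀ d ∈ S, T.Adj c d → s(c, d) = s(a, b) := by
  unfold F
  rw [mem_filter]
  simp only [mem_univ, true_and]
  constructor
  · intro h
    have h1 : s(a, b) ∈ ind T S := by rw [h]; simp
    unfold ind at h1 h
    rw [mem_filter] at h1
    refine ⟨h1.2 a (by simp), h1.2 b (by simp), ?_⟩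
    intro c hc d hd hcd
    have h2 : s(c, d) ∈ T.edgeFinset.filter (fun e => ∀ v ∈ e, v ∈ S) := by
      rw [mem_filter]
      refine ⟨by simpa using hcd, ?_⟩
      intro v hv
      rw [Sym2.mem_iff] at hv
      rcases hv with rfl | rfl
      · exact hc
      · exact hd
    rw [h] at h2
    exact mem_singleton.1 h2
  · rintro ⟨ha, hb, h⟩
    ext e
    unfold ind
    rw [mem_filter, mem_singleton]
    constructor
    · rintro ⟨h1, h2⟩
      induction e using Sym2.ind with
      | _ c d =>
        exact h c (h2 c (by simp)) d (h2 d (by simp)) (by simpa using h1)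
    · rintro rfl
      refine ⟨by simpa using hab, ?_⟩
      intro v hv
      rw [Sym2.mem_iff] at hv
      rcases hv with rfl | rfl
      · exact ha
      · exact hb

lemma card_V {a b : V} (hab : a ≠ b) :
    Fintype.card V = 2 + (A T a b).card + (B T a b).card := by
  have h1 := card_filter_add_card_filter_not (s := (univ : Finset V)) (fun w => w ≠ a ∧ w ≠ b)
  have h2 := card_filter_add_card_filter_not (s := univ.filter (fun w : V => w ≠ a ∧ w ≠ b))
    (fun w => T.Adj a w ∨ T.Adj b w)
  rw [filter_filter, filter_filter] at h2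
  have h3 : univ.filter (fun w : V => ¬ (w ≠ a ∧ w ≠ b)) = {a, b} := by
    ext w; simp; tauto
  rw [h3, card_pair hab, card_univ] at h1
  unfold A B
  omega

lemma card_S {a b : V} (hab : T.Adj a b) {S : Finset V} (hS : S ∈ F T s(a, b)) :
    S.card = 2 + ((A T a b).filter (fun w => w ∈ S)).card := by
  obtain ⟨ha, hb, h⟩ := (mem_F hab S).1 hS
  have : S = {a, b} ∪ (A T a b).filter (fun w => w ∈ S) := by
    ext w
    simp only [mem_union, mem_insert, mem_singleton, mem_filter, A, mem_univ, true_and]
    constructor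
    · intro hw
      by_cases h1 : w = a
      · left; left; exact h1
      by_cases h2 : w = b
      · left; right; exact h2
      right
      refine ⟨⟨⟨h1, h2⟩, ?_⟩, hw⟩
      rintro (h3 | h3)
      · have := h a ha w hw h3
        rw [Sym2.eq_iff] at this
        rcases this with ⟨_, h4⟩ | ⟨h4, _⟩
        · exact h2 h4
        · exact hab.ne h4
      · have := h b hb w hw h3
        rw [Sym2.eq_iff] at this
        rcases this with ⟨h4, _⟩ | ⟨_, h4⟩
        · exact hab.ne h4.symm
        · exact h1 h4
    · rintro ((rfl | rfl) | hw)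
      · exact ha
      · exact hb
      · exact hw.2
  have hdis : Disjoint ({a, b} : Finset V) ((A T a b).filter (fun w => w ∈ S)) := by
    rw [disjoint_left]
    intro w hw hw2
    simp only [mem_filter, A, mem_univ, true_and] at hw2
    simp only [mem_insert, mem_singleton] at hw
    rcases hw with h | h
    · exact hw2.1.1.1 h
    · exact hw2.1.1.2 h
  conv_lhs => rw [this]
  rw [card_union_of_disjoint hdis, card_pair hab.ne]

lemma erase_mem {a b : V} (hab : T.Adj a b) {S : Finset V} (hS : S ∈ F T s(a, b)) {w : V}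
    (h1 : w ≠ a) (h2 : w ≠ b) : S.erase w ∈ F T s(a, b) := by
  obtain ⟨ha, hb, h⟩ := (mem_F hab S).1 hS
  refine (mem_F hab _).2 ⟨mem_erase.2 ⟨h1.symm, ha⟩, mem_erase.2 ⟨h2.symm, hb⟩, ?_⟩
  intro c hc d hd
  exact h c (mem_of_mem_erase hc) d (mem_of_mem_erase hd)

lemma sum_F {a b : V} (hab : T.Adj a b) :
    ∑ S ∈ F T s(a, b), S.card = 2 * (F T s(a, b)).card +
      ∑ w ∈ A T a b, ((F T s(a, b)).filter (fun S => w ∈ S)).card := by
  rw [sum_congr rfl (fun S hS => card_S hab hS), sum_add_distrib, sum_const, smul_eq_mul, mul_comm]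
  congr 1
  simp only [card_filter]
  rw [sum_comm]

lemma f1 {a b : V} (hab : T.Adj a b) {w : V} (hw : w ∈ A T a b) :
    2 * ((F T s(a, b)).filter (fun S => w ∈ S)).card ≤ (F T s(a, b)).card := by
  simp only [A, mem_filter, mem_univ, true_and] at hw
  have h1 := card_filter_add_card_filter_not (s := F T s(a, b)) (fun S => w ∈ S)
  have h2 : ((F T s(a, b)).filter (fun S => w ∈ S)).card ≤
      ((F T s(a, b)).filter (fun S => ¬ w ∈ S)).card := by
    apply card_le_card_of_injOn (fun S => S.erase w)
    · intro S hS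
      have hS' := mem_filter.1 (mem_coe.1 hS)
      exact mem_coe.2 (mem_filter.2 ⟨erase_mem hab hS'.1 hw.1.1 hw.1.2, by simp⟩)
    · intro S hS S' hS' h
      have h3 := (mem_filter.1 (mem_coe.1 hS)).2
      have h4 := (mem_filter.1 (mem_coe.1 hS')).2
      simp only at h
      rw [← insert_erase h3, h, insert_erase h4]
  omega

lemma f2 {a b : V} (hab : T.Adj a b) {x y : V} (hx : x ∈ A T a b) (hy : y ∈ A T a b)
    (hxy : T.Adj x y) :
    3 * (((F T s(a, b)).filter (fun S => x ∈ S)).card +
      ((F T s(a, b)).filter (fun S => y ∈ S)).card) ≤ 2 * (F T s(a, b)).card := by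
  simp only [A, mem_filter, mem_univ, true_and] at hx hy
  have hnot : ∀ S ∈ F T s(a, b), x ∈ S → y ∈ S → False := by
    intro S hS h1 h2
    have := ((mem_F hab S).1 hS).2.2 x h1 y h2 hxy
    rw [Sym2.eq_iff] at this
    rcases this with ⟨h, _⟩ | ⟨h, _⟩
    · exact hx.1.1 h
    · exact hx.1.2 h
  have h0 : ∀ u v : V, (∀ S ∈ F T s(a, b), u ∈ S → v ∈ S → False) → u ≠ a → u ≠ b →
      ((F T s(a, b)).filter (fun S => u ∈ S)).card ≤
      ((F T s(a, b)).filter (fun S => u ∉ S ∧ v ∉ S)).card := by
    intro u v huv hua hub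
    apply card_le_card_of_injOn (fun S => S.erase u)
    · intro S hS
      have hS' := mem_filter.1 (mem_coe.1 hS)
      refine mem_coe.2 (mem_filter.2 ⟨erase_mem hab hS'.1 hua hub, by simp, ?_⟩)
      intro h
      exact huv S hS'.1 hS'.2 (mem_of_mem_erase h)
    · intro S hS S' hS' h
      have h3 := (mem_filter.1 (mem_coe.1 hS)).2
      have h4 := (mem_filter.1 (mem_coe.1 hS')).2
      simp only at h
      rw [← insert_erase h3, h, insert_erase h4]
  have hX := h0 x y hnot hx.1.1 hx.1.2
  have hY := h0 y x (fun S hS h1 h2 => hnot S hS h2 h1) hy.1.1 hy.1.2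
  have h1 := card_filter_add_card_filter_not (s := F T s(a, b)) (fun S => x ∈ S)
  have h2 := card_filter_add_card_filter_not
    (s := (F T s(a, b)).filter (fun S => ¬ x ∈ S)) (fun S => y ∈ S)
  rw [filter_filter, filter_filter] at h2
  have h3 : (F T s(a, b)).filter (fun S => ¬ x ∈ S ∧ y ∈ S) =
      (F T s(a, b)).filter (fun S => y ∈ S) := by
    apply filter_congr
    intro S hS
    exact ⟨fun h => h.2, fun h => ⟨fun h' => hnot S hS h' h, h⟩⟩
  have h4 : (F T s(a, b)).filter (fun S => y ∉ S ∧ x ∉ S) =
      (F T s(a, b)).filter (fun S => x ∉ S ∧ y ∉ S) := by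
    apply filter_congr
    intro S _
    exact And.comm
  rw [h3] at h2
  rw [h4] at hY
  omega

/-- the inequality for one edge -/
lemma edge_ineq {a b : V} (hab : T.Adj a b)
    (h : 2 ≤ (B T a b).card ∨
      (1 ≤ (B T a b).card ∧ ∃ x ∈ A T a b, ∃ y ∈ A T a b, T.Adj x y)) :
    6 * ∑ S ∈ F T s(a, b), S.card ≤ (3 * Fintype.card V + 1) * (F T s(a, b)).card := by
  rw [sum_F hab, card_V (T := T) hab.ne]
  set f : V → ℕ := fun w => ((F T s(a, b)).filter (fun S => w ∈ S)).card with hf
  set q := (F T s(a, b)).card with hq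
  rcases h with h | ⟨h, x, hx, y, hy, hxy⟩
  · have h1 : ∑ w ∈ A T a b, 2 * f w ≤ ∑ w ∈ A T a b, q :=
      sum_le_sum (fun w hw => f1 hab hw)
    rw [← mul_sum, sum_const, smul_eq_mul] at h1
    nlinarith [Nat.mul_le_mul_right q h]
  · have hne : x ≠ y := hxy.ne
    have hy' : y ∈ (A T a b).erase x := mem_erase.2 ⟨hne.symm, hy⟩
    rw [← add_sum_erase _ _ hx, ← add_sum_erase _ _ hy']
    have h1 : ∑ w ∈ ((A T a b).erase x).erase y, 2 * f w ≤
        ∑ w ∈ ((A T a b).erase x).erase y, q :=
      sum_le_sum (fun w hw => f1 hab (mem_of_mem_erase (mem_of_mem_erase hw)))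
    rw [← mul_sum, sum_const, smul_eq_mul, card_erase_of_mem hy', card_erase_of_mem hx] at h1
    have h2 := f2 hab hx hy hxy
    have h3 : 2 ≤ (A T a b).card := by
      have : ({x, y} : Finset V) ⊆ A T a b := by
        intro z hz
        simp only [mem_insert, mem_singleton] at hz
        rcases hz with rfl | rfl
        · exact hx
        · exact hy
      have := card_le_card this
      rwa [card_pair hne] at this
    obtain ⟨r, hr⟩ := Nat.exists_eq_add_of_le h3
    have h4 : (A T a b).card - 1 - 1 = r := by omega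
    rw [h4] at h1
    rw [hr]
    change 3 * (f x + f y) ≤ 2 * q at h2
    nlinarith [Nat.mul_le_mul_right q h]

lemma NI_eq : NI T = T.edgeFinset.biUnion (fun e => F T e) := by
  ext S
  simp only [NI, F, mem_filter, mem_univ, true_and, mem_biUnion]
  rw [card_eq_one]
  constructor
  · rintro ⟨e, he⟩
    refine ⟨e, ?_, he⟩
    have : e ∈ ind T S := by rw [he]; simp
    exact (mem_filter.1 this).1
  · rintro ⟨e, _, he⟩
    exact ⟨e, he⟩

lemma disj : Set.PairwiseDisjoint (T.edgeFinset : Set (Sym2 V)) (fun e => F T e) := by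
  intro e _ e' _ hne
  rw [Function.onFun, disjoint_left]
  intro S hS hS'
  simp only [F, mem_filter, mem_univ, true_and] at hS hS'
  rw [hS] at hS'
  exact hne (singleton_injective hS')

lemma good_ineq (h : ∀ a b : V, T.Adj a b → (2 ≤ (B T a b).card ∨
      (1 ≤ (B T a b).card ∧ ∃ x ∈ A T a b, ∃ y ∈ A T a b, T.Adj x y))) :
    6 * ∑ S ∈ NI T, S.card ≤ (3 * Fintype.card V + 1) * (NI T).card := by
  rw [NI_eq, sum_biUnion disj, card_biUnion (fun e he e' he' hne => disj he he' hne), mul_sum,
    mul_sum]
  apply sum_le_sum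
  intro e he
  induction e using Sym2.ind with
  | _ a b =>
    have hab : T.Adj a b := by simpa using he
    exact edge_ineq hab (h a b hab)

/-- the exceptional case -/
lemma exceptional (hT : T.IsTree) (hn : 4 ≤ Fintype.card V) {a b : V} (hab : T.Adj a b)
    (h : ¬ (2 ≤ (B T a b).card ∨
      (1 ≤ (B T a b).card ∧ ∃ x ∈ A T a b, ∃ y ∈ A T a b, T.Adj x y))) :
    ∃ e : Fin (Fintype.card V) ≃ V, Desc T (Fintype.card V) e pR := by
  push Not at h
  obtain ⟨hB2, hA⟩ := h
  have hcard := card_V (T := T) hab.ne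
  -- `B` is nonempty
  have hApos : 1 ≤ (A T a b).card := by omega
  obtain ⟨z0, hz0⟩ := card_pos.1 hApos
  have hz0' : z0 ≠ a ∧ z0 ≠ b := by
    simp only [A, mem_filter, mem_univ, true_and] at hz0; exact hz0.1
  have hB1 : 1 ≤ (B T a b).card := by
    obtain ⟨p⟩ := hT.1.preconnected a z0
    obtain ⟨d, _, hd1, hd2⟩ := p.exists_boundary_dart ({a, b} : Set V) (by simp)
      (by simp [hz0'.1, hz0'.2])
    apply card_pos.2
    refine ⟨d.snd, ?_⟩
    simp only [Set.mem_insert_iff, Set.mem_singleton_iff, not_or] at hd1 hd2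
    simp only [B, mem_filter, mem_univ, true_and]
    refine ⟨hd2, ?_⟩
    have hadj := d.adj
    rcases hd1 with h1 | h1
    · left; rw [← h1]; exact hadj
    · right; rw [← h1]; exact hadj
  have hA' := hA hB1
  obtain ⟨w, hw⟩ := card_eq_one.1 (show (B T a b).card = 1 by omega)
  have hwB : w ∈ B T a b := by rw [hw]; simp
  simp only [B, mem_filter, mem_univ, true_and] at hwB
  -- every vertex of `A` is adjacent exactly to `w`
  have hAw : ∀ z ∈ A T a b, T.Adj z w := by
    intro z hz
    have hz' := hz
    simp only [A, mem_filter, mem_univ, true_and] at hz'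
    obtain ⟨p⟩ := hT.1.preconnected z a
    obtain ⟨d, _, hd1, hd2⟩ := p.exists_boundary_dart ({z} : Set V) (by simp)
      (by simpa using hz'.1.1.symm)
    simp only [Set.mem_singleton_iff] at hd1 hd2
    have hadj : T.Adj z d.snd := by rw [← hd1]; exact d.adj
    have h1 : d.snd ≠ a := by
      intro h; rw [h] at hadj; exact hz'.2 (Or.inl hadj.symm)
    have h2 : d.snd ≠ b := by
      intro h; rw [h] at hadj; exact hz'.2 (Or.inr hadj.symm)
    have h3 : d.snd ∉ A T a b := fun h => hA' z hz d.snd h hadj
    have h4 : d.snd ∈ B T a b := by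
      simp only [A, B, mem_filter, mem_univ, true_and] at h3 ⊢
      refine ⟨⟨h1, h2⟩, ?_⟩
      by_contra h5
      exact h3 ⟨⟨h1, h2⟩, h5⟩
    rw [hw, mem_singleton] at h4
    rw [h4] at hadj
    exact hadj
  -- no triangle
  have htri : ¬ (T.Adj a w ∧ T.Adj b w) := by
    rintro ⟨h1, h2⟩
    have : ∃ s : Finset V, T.IsNClique 3 s := ⟨{a, b, w}, by
      rw [SimpleGraph.is3Clique_triple_iff]; exact ⟨hab, h1, h2⟩⟩
    rw [SimpleGraph.is3Clique_iff_exists_cycle_length_three] at this
    obtain ⟨u, c, hc, _⟩ := this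
    exact hT.2 c hc
  -- normalise: `w ~ b'`, `a'` is a leaf
  obtain ⟨a', b', hab', hwb', hwa', hmem⟩ : ∃ a' b' : V, T.Adj a' b' ∧ T.Adj b' w ∧ ¬ T.Adj a' w ∧
      (∀ v, v ≠ a' → v ≠ b' → v ≠ w → v ∈ A T a b) := by
    have hm : ∀ v, v ≠ a → v ≠ b → v ≠ w → v ∈ A T a b := by
      intro v h1 h2 h3
      simp only [A, mem_filter, mem_univ, true_and]
      refine ⟨⟨h1, h2⟩, ?_⟩
      intro h4
      have : v ∈ B T a b := by
        simp only [B, mem_filter, mem_univ, true_and]; exact ⟨⟨h1, h2⟩, h4⟩
      rw [hw, mem_singleton] at this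
      exact h3 this
    rcases hwB.2 with h1 | h1
    · exact ⟨b, a, hab.symm, h1, fun h2 => htri ⟨h1, h2⟩, fun v h2 h3 h4 => hm v h3 h2 h4⟩
    · exact ⟨a, b, hab, h1, fun h2 => htri ⟨h2, h1⟩, hm⟩
  have hA_ab : ∀ v ∈ A T a b, (v ≠ a' ∧ v ≠ b' ∧ v ≠ w) ∧ ¬ T.Adj a' v ∧ ¬ T.Adj b' v := by
    intro v hv
    have hv' := hv
    simp only [A, mem_filter, mem_univ, true_and] at hv'
    have hvw : v ≠ w := (hAw v hv).ne
    have key : ∀ u : V, u = a ∨ u = b → v ≠ u ∧ ¬ T.Adj u v := by
      rintro u (rfl | rfl)
      · exact ⟨hv'.1.1, fun h => hv'.2 (Or.inl h)⟩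
      · exact ⟨hv'.1.2, fun h => hv'.2 (Or.inr h)⟩
    -- `a'`, `b'` are not in `A`, hence equal to `a`, `b`
    have hin : ∀ u : V, u ≠ w → u ∉ A T a b → u = a ∨ u = b := by
      intro u hu huA
      by_contra hcon
      push Not at hcon
      simp only [A, mem_filter, mem_univ, true_and] at huA
      have huB : u ∈ B T a b := by
        simp only [B, mem_filter, mem_univ, true_and]
        refine ⟨hcon, ?_⟩
        by_contra h5
        exact huA ⟨hcon, h5⟩
      rw [hw, mem_singleton] at huB
      exact hu huB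
    have hb' : b' = a ∨ b' = b := by
      apply hin b' hwb'.ne
      intro h5
      -- `b' ∈ A` would give `a' ~ b'` both... `a'` must be `w`
      by_cases ha'A : a' ∈ A T a b
      · exact hA' a' ha'A b' h5 hab'
      · by_cases haw : a' = w
        · have h6 := hin
          -- `a' = w`: then `¬ Adj w w` no information; use a different argument
          subst haw
          exact (hwa'.elim (by
            exfalso
            -- both a and b are different from a' and b', so they belong to `A`
            have ha1 : a ∈ A T a b := hmem a (by rintro rfl; exact hwB.1.1 rfl)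
              (by rintro rfl; simp [A] at h5) (by rintro rfl; exact hwB.1.1 rfl)
            simp [A] at ha1))
        · rcases hin a' haw ha'A with h7 | h7
          · simp only [A, mem_filter, mem_univ, true_and] at h5
            exact h5.2 (Or.inl (h7 ▸ hab'))
          · simp only [A, mem_filter, mem_univ, true_and] at h5
            exact h5.2 (Or.inr (h7 ▸ hab'))
    have ha' : a' = a ∨ a' = b := by
      by_cases haw : a' = w
      · subst haw
        exfalso
        rcases hb' with h7 | h7
        · have hb1 : b ∈ A T a b := hmem b (by rintro rfl; exact hwB.1.2 rfl)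
            (by rw [h7]; exact hab.ne.symm) (by rintro rfl; exact hwB.1.2 rfl)
          simp [A] at hb1
        · have ha1 : a ∈ A T a b := hmem a (by rintro rfl; exact hwB.1.1 rfl)
            (by rw [h7]; exact hab.ne) (by rintro rfl; exact hwB.1.1 rfl)
          simp [A] at ha1
      · apply hin a' haw
        intro h5
        simp only [A, mem_filter, mem_univ, true_and] at h5
        rcases hb' with h7 | h7
        · exact h5.2 (Or.inl (h7 ▸ hab'.symm))
        · exact h5.2 (Or.inr (h7 ▸ hab'.symm))
    exact ⟨⟨(key a' ha').1, (key b' hb').1, hvw⟩, (key a' ha').2, (key b' hb').2⟩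
  have haw' : a' ≠ w := by
    intro h
    have := hA_ab z0 hz0
    rw [h] at this
    exact this.2.1 (hAw z0 hz0).symm
  -- the enumeration
  set n := Fintype.card V with hn'
  let i0 : Fin n := ⟨0, by omega⟩
  let i1 : Fin n := ⟨1, by omega⟩
  let i2 : Fin n := ⟨2, by omega⟩
  have h01 : i0 ≠ i1 := by simp [i0, i1]
  have h02 : i0 ≠ i2 := by simp [i0, i2]
  have h12 : i1 ≠ i2 := by simp [i1, i2]
  let e0 : Fin n ≃ V := (Fintype.equivFin V).symm
  let e1 : Fin n ≃ V := e0.trans (Equiv.swap (e0 i0) w)
  have he10 : e1 i0 = w := by simp [e1]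
  let e2 : Fin n ≃ V := e1.trans (Equiv.swap (e1 i1) b')
  have he21 : e2 i1 = b' := by simp [e2]
  have he20 : e2 i0 = w := by
    simp only [e2, Equiv.trans_apply, he10]
    apply Equiv.swap_apply_of_ne_of_ne
    · rw [← he10]; exact fun h => h01 (e1.injective h)
    · exact hwb'.ne.symm
  let e3 : Fin n ≃ V := e2.trans (Equiv.swap (e2 i2) a')
  have he32 : e3 i2 = a' := by simp [e3]
  have he31 : e3 i1 = b' := by
    simp only [e3, Equiv.trans_apply, he21]
    apply Equiv.swap_apply_of_ne_of_ne
    · rw [← he21]; exact fun h => h12 (e2.injective h)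
    · exact hab'.ne.symm
  have he30 : e3 i0 = w := by
    simp only [e3, Equiv.trans_apply, he20]
    apply Equiv.swap_apply_of_ne_of_ne
    · rw [← he20]; exact fun h => h02 (e2.injective h)
    · exact haw'.symm
  have hrest : ∀ j : Fin n, 3 ≤ (j : ℕ) → e3 j ∈ A T a b := by
    intro j hj
    apply hmem
    · rw [← he32]; intro h; have := e3.injective h; rw [this] at hj; simp [i2] at hj
    · rw [← he31]; intro h; have := e3.injective h; rw [this] at hj; simp [i1] at hj
    · rw [← he30]; intro h; have := e3.injective h; rw [this] at hj; simp [i0] at hj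
  refine ⟨e3, ?_, ?_⟩
  · intro i hi _
    unfold pR; split_ifs <;> omega
  · intro i j hij
    have hlt := Fin.lt_def.1 hij
    have hval : ∀ (k : Fin n), (k : ℕ) = 0 → k = i0 := fun k hk => Fin.ext hk
    have hval1 : ∀ (k : Fin n), (k : ℕ) = 1 → k = i1 := fun k hk => Fin.ext hk
    have hval2 : ∀ (k : Fin n), (k : ℕ) = 2 → k = i2 := fun k hk => Fin.ext hk
    by_cases hj3 : 3 ≤ (j : ℕ)
    · have hp : pR j = 0 := by unfold pR; rw [if_neg (by omega)]
      rw [hp]
      have hjA := hrest j hj3
      have hj' := hA_ab _ hjA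
      by_cases hi3 : 3 ≤ (i : ℕ)
      · have := hA' _ (hrest i hi3) _ hjA
        constructor
        · intro h; exact absurd h this
        · intro h; omega
      · by_cases hi0 : (i : ℕ) = 0
        · rw [hval i hi0, he30]
          simp only [i0, iff_true]
          exact (hAw _ hjA).symm
        · by_cases hi1 : (i : ℕ) = 1
          · rw [hval1 i hi1, he31]
            constructor
            · intro h; exact absurd h hj'.2.2
            · intro h; simp [i1] at h
          · rw [hval2 i (by omega), he32]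
            constructor
            · intro h; exact absurd h hj'.2.1
            · intro h; simp [i2] at h
    · by_cases hj2 : (j : ℕ) = 2
      · rw [hval2 j hj2]
        have hp : pR (i2 : Fin n) = 1 := rfl
        rw [hp, he32]
        by_cases hi0 : (i : ℕ) = 0
        · rw [hval i hi0, he30]
          constructor
          · intro h; exact absurd h.symm hwa'
          · intro h; simp [i0] at h
        · rw [hval1 i (by omega), he31]
          simp only [i1, iff_true]
          exact hab'.symm
      · have hj1 : (j : ℕ) = 1 := by omega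
        rw [hval1 j hj1, hval i (by omega), he31, he30]
        have hp : pR (i1 : Fin n) = 0 := rfl
        rw [hp]
        simp only [i0, iff_true]
        exact hwb'.symm

end Pool.Agent.X54.NearD
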