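import Mathlib

/-!
A sum closed permutation class: the finite permutations order-isomorphic to a finite part of the
bijection `f` of `ℕ` given by `3i ↦ 3i+2`, `3i+1 ↦ 3i+4`, `3i+2 ↦ 3i` (an increasing oscillation
with pendant points).
-/

namespace Pool.Agent.X54.Osc

open Finset

/-- `σ` is contained in `π` as a pattern. -/
def Contained {k n : ℕ} (σ : Equiv.Perm (Fin k)) (π : Equiv.Perm (Fin n)) : Prop :=
  ∃ g : Fin k → Fin n, StrictMono g ∧ ∀ i j, σ i < σ j ↔ π (g i) < π (g j)

/-- A permutation class: a family of sets of permutations closed under containment. -/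
def IsClass (C : ∀ n, Set (Equiv.Perm (Fin n))) : Prop :=
  ∀ (k n : ℕ) (σ : Equiv.Perm (Fin k)) (π : Equiv.Perm (Fin n)),
    π ∈ C n → Contained σ π → σ ∈ C k

/-- The direct sum `σ ⊕ τ`. -/
def dsum {k m : ℕ} (σ : Equiv.Perm (Fin k)) (τ : Equiv.Perm (Fin m)) :
    Equiv.Perm (Fin (k + m)) :=
  finSumFinEquiv.symm.trans ((Equiv.sumCongr σ τ).trans finSumFinEquiv)

/-- The class is closed under direct sums. -/
def SumClosed (C : ∀ n, Set (Equiv.Perm (Fin n))) : Prop :=
  ∀ (k m : ℕ) (σ : Equiv.Perm (Fin k)) (τ : Equiv.Perm (Fin m)),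
    σ ∈ C k → τ ∈ C m → dsum σ τ ∈ C (k + m)

/-- `π` is nonempty and is not a direct sum of two nonempty permutations: for no `0 < t < n`
does `π` map the first `t` points to themselves. -/
def Indecomposable {n : ℕ} (π : Equiv.Perm (Fin n)) : Prop :=
  0 < n ∧ ∀ t : ℕ, 0 < t → t < n → ∃ i : Fin n, (i : ℕ) < t ∧ t ≤ (π i : ℕ)

/-- The indecomposable members of `C`. -/
def ind (C : ∀ n, Set (Equiv.Perm (Fin n))) (n : ℕ) : Set (Equiv.Perm (Fin n)) :=
  {π | π ∈ C n ∧ Indecomposable π}

/-- The upper growth rate `limsup |X_n|^(1/n)`. -/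
noncomputable def upperGr (X : ∀ n, Set (Equiv.Perm (Fin n))) : ENNReal :=
  Filter.limsup (fun n : ℕ => ((X n).ncard : ENNReal) ^ (1 / (n : ℝ))) Filter.atTop

/-! ### The class -/

/-- the underlying bijection of `ℕ` -/
def f (m : ℕ) : ℕ := if m % 3 = 0 then m + 2 else if m % 3 = 1 then m + 3 else m - 2

theorem f_cases (m : ℕ) : (m % 3 = 0 ∧ f m = m + 2) ∨ (m % 3 = 1 ∧ f m = m + 3) ∨
    (m % 3 = 2 ∧ f m + 2 = m) := by
  unfold f
  split_ifs with h1 h2
  · exact Or.inl ⟨h1, rfl⟩
  · exact Or.inr (Or.inl ⟨h2, rfl⟩)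
  · exact Or.inr (Or.inr ⟨by omega, by omega⟩)

theorem f_inj : Function.Injective f := by
  intro a b h
  rcases f_cases a with ha | ha | ha <;> rcases f_cases b with hb | hb | hb <;> omega

/-- The class. -/
def C (n : ℕ) : Set (Equiv.Perm (Fin n)) :=
  {π | ∃ s : Fin n → ℕ, StrictMono s ∧ ∀ i j, π i < π j ↔ f (s i) < f (s j)}

theorem isClass_C : IsClass C := by
  rintro k n σ π ⟨s, hs, hπ⟩ ⟨g, hg, hσ⟩
  exact ⟨s ∘ g, hs.comp hg, fun i j => (hσ i j).trans (hπ _ _)⟩

theorem dsum_castAdd {k m : ℕ} (σ : Equiv.Perm (Fin k)) (τ : Equiv.Perm (Fin m)) (i : Fin k) :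
    dsum σ τ (Fin.castAdd m i) = Fin.castAdd m (σ i) := by
  simp [dsum]

theorem dsum_natAdd {k m : ℕ} (σ : Equiv.Perm (Fin k)) (τ : Equiv.Perm (Fin m)) (i : Fin m) :
    dsum σ τ (Fin.natAdd k i) = Fin.natAdd k (τ i) := by
  simp [dsum]

theorem f_shift (a M : ℕ) : f (a + 3 * M) = f a + 3 * M := by
  rcases f_cases a with ha | ha | ha <;> rcases f_cases (a + 3 * M) with hb | hb | hb <;> omega

theorem sumClosed_C : SumClosed C := by
  rintro k m σ τ ⟨s, hs, hσ⟩ ⟨t, ht, hτ⟩
  obtain ⟨M, hM⟩ : ∃ M, ∀ i, s i < M := by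
    refine ⟨(univ.sup s) + 1, fun i => ?_⟩
    exact Nat.lt_succ_of_le (Finset.le_sup (mem_univ i))
  refine ⟨Fin.addCases s (fun j => t j + 3 * (M + 5)), ?_, ?_⟩
  · intro i j hij
    induction i using Fin.addCases with
    | left i =>
      induction j using Fin.addCases with
      | left j =>
        simp only [Fin.addCases_left]
        have h1 : i < j := by
          rw [Fin.lt_def] at hij ⊢
          simp only [Fin.val_castAdd] at hij
          exact hij
        exact hs h1
      | right j =>
        simp only [Fin.addCases_left, Fin.addCases_right]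
        have := hM i
        omega
    | right i =>
      induction j using Fin.addCases with
      | left j =>
        exfalso
        rw [Fin.lt_def] at hij
        simp only [Fin.val_natAdd, Fin.val_castAdd] at hij
        omega
      | right j =>
        simp only [Fin.addCases_right]
        have h1 : i < j := by
          rw [Fin.lt_def] at hij ⊢
          simp only [Fin.val_natAdd] at hij
          omega
        have := ht h1
        omega
  · intro i j
    induction i using Fin.addCases with
    | left i =>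
      induction j using Fin.addCases with
      | left j =>
        rw [dsum_castAdd, dsum_castAdd]
        simp only [Fin.addCases_left]
        rw [← hσ i j, Fin.lt_def, Fin.lt_def]
        simp
      | right j =>
        rw [dsum_castAdd, dsum_natAdd]
        simp only [Fin.addCases_left, Fin.addCases_right]
        rw [f_shift, Fin.lt_def]
        simp only [Fin.val_natAdd, Fin.val_castAdd]
        have h1 := hM i
        have h2 := (σ i).isLt
        constructor
        · intro _
          rcases f_cases (s i) with ha | ha | ha <;> omega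
        · intro _
          omega
    | right i =>
      induction j using Fin.addCases with
      | left j =>
        rw [dsum_castAdd, dsum_natAdd]
        simp only [Fin.addCases_left, Fin.addCases_right]
        rw [f_shift, Fin.lt_def]
        simp only [Fin.val_natAdd, Fin.val_castAdd]
        have h1 := hM j
        have h2 := (σ j).isLt
        constructor
        · intro _
          omega
        · intro _
          rcases f_cases (s j) with ha | ha | ha <;> omega
      | right j =>
        rw [dsum_natAdd, dsum_natAdd]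
        simp only [Fin.addCases_right]
        rw [f_shift, f_shift, Nat.add_lt_add_iff_right, ← hτ i j, Fin.lt_def, Fin.lt_def]
        simp

/-! ### Left inversion codes -/

/-- number of earlier larger entries -/
def lc {n : ℕ} (π : Equiv.Perm (Fin n)) (t : Fin n) : ℕ :=
  #(univ.filter fun j => j < t ∧ π t < π j)

/-- the code of a permutation -/
def code {n : ℕ} (π : Equiv.Perm (Fin n)) : List ℕ := List.ofFn (lc π)

theorem order_of_code {n : ℕ} (π τ : Equiv.Perm (Fin n)) (h : ∀ t, lc π t = lc τ t) :
    ∀ t : ℕ, ∀ i j : Fin n, (i : ℕ) < t → (j : ℕ) < t → (π i < π j ↔ τ i < τ j) := by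
  intro t
  induction t with
  | zero => intro i j hi; omega
  | succ t ih =>
    -- the new element
    have key : ∀ e i : Fin n, (e : ℕ) = t → (i : ℕ) < t → (π e < π i ↔ τ e < τ i) := by
      intro e i he hi
      have hU : (univ.filter fun j => j < e ∧ π e < π j) = univ.filter fun j => j < e ∧ τ e < τ j := by
        have hc : #(univ.filter fun j => j < e ∧ π e < π j)
            = #(univ.filter fun j => j < e ∧ τ e < τ j) := h e
        by_cases hsub : (univ.filter fun j => j < e ∧ π e < π j)
            ⊆ univ.filter fun j => j < e ∧ τ e < τ j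
        · exact Finset.eq_of_subset_of_card_le hsub hc.ge
        · symm
          apply Finset.eq_of_subset_of_card_le _ hc.le
          rw [Finset.not_subset] at hsub
          obtain ⟨a, ha, ha'⟩ := hsub
          intro b hb
          rw [mem_filter] at ha ha' hb ⊢
          have ha1 : (a : ℕ) < t := by rw [← he]; exact ha.2.1
          have hb1 : (b : ℕ) < t := by rw [← he]; exact hb.2.1
          have ha2 : ¬ τ e < τ a := fun hh => ha' ⟨mem_univ _, ha.2.1, hh⟩
          refine ⟨mem_univ _, hb.2.1, ?_⟩
          have h1 : τ a < τ b := lt_of_le_of_lt (not_lt.mp ha2) hb.2.2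
          exact lt_trans ha.2.2 ((ih a b ha1 hb1).mpr h1)
      have hi' : i < e := by rw [Fin.lt_def]; omega
      constructor
      · intro hlt
        have : i ∈ univ.filter fun j => j < e ∧ π e < π j := mem_filter.mpr ⟨mem_univ _, hi', hlt⟩
        rw [hU] at this
        exact (mem_filter.mp this).2.2
      · intro hlt
        have : i ∈ univ.filter fun j => j < e ∧ τ e < τ j := mem_filter.mpr ⟨mem_univ _, hi', hlt⟩
        rw [← hU] at this
        exact (mem_filter.mp this).2.2
    intro i j hi hj
    rcases Nat.lt_succ_iff_lt_or_eq.mp hi with hi | hi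
    · rcases Nat.lt_succ_iff_lt_or_eq.mp hj with hj | hj
      · exact ih i j hi hj
      · have hne : i ≠ j := fun hh => by rw [hh] at hi; omega
        have h1 := key j i hj hi
        have h2 : π i ≠ π j := fun hh => hne (π.injective hh)
        have h3 : τ i ≠ τ j := fun hh => hne (τ.injective hh)
        constructor
        · intro hlt
          exact lt_of_le_of_ne (not_lt.mp fun hh => absurd (h1.mpr hh) (not_lt.mpr hlt.le)) h3
        · intro hlt
          exact lt_of_le_of_ne (not_lt.mp fun hh => absurd (h1.mp hh) (not_lt.mpr hlt.le)) h2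
    · rcases Nat.lt_succ_iff_lt_or_eq.mp hj with hj | hj
      · exact key i j hi hj
      · have : i = j := Fin.ext (by omega)
        rw [this]
        simp

theorem perm_eq_of_order {n : ℕ} (π τ : Equiv.Perm (Fin n))
    (h : ∀ i j, π i < π j ↔ τ i < τ j) : π = τ := by
  have key : ∀ (ρ : Equiv.Perm (Fin n)) (i : Fin n),
      #(univ.filter fun j => ρ j < ρ i) = (ρ i : ℕ) := by
    intro ρ i
    have h1 : (univ.filter fun j => ρ j < ρ i).map ρ.toEmbedding = Finset.Iio (ρ i) := by
      ext x
      simp only [mem_map, mem_filter, mem_univ, true_and, Equiv.toEmbedding_apply, mem_Iio]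
      constructor
      · rintro ⟨j, hj, rfl⟩; exact hj
      · intro hx
        exact ⟨ρ.symm x, by simpa using hx, by simp⟩
    rw [← Finset.card_map ρ.toEmbedding, h1, Fin.card_Iio]
  ext i
  rw [← key π i, ← key τ i]
  congr 1
  ext j
  simp [h j i]

theorem code_injective {n : ℕ} : Function.Injective (code : Equiv.Perm (Fin n) → List ℕ) := by
  intro π τ h
  have h1 : lc π = lc τ := List.ofFn_injective h
  apply perm_eq_of_order
  intro i j
  exact order_of_code π τ (fun t => congrFun h1 t) n i j i.isLt j.isLt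


/-! ### Scanning -/

section scan

variable {n : ℕ} (s : Fin n → ℕ)

/-- the code of the position `m` -/
def cS (m : ℕ) : ℕ := #(univ.filter fun i => s i < m ∧ f m < f (s i))

/-- number of used positions below `m` -/
def cnt (m : ℕ) : ℕ := #(univ.filter fun i => s i < m)

open Classical in
/-- the code word of the part below `m` -/
noncomputable def V : ℕ → List ℕ
  | 0 => []
  | m + 1 => V m ++ (if ∃ i, s i = m then [cS s m] else [])

theorem cnt_eq (hs : StrictMono s) (i : Fin n) : cnt s (s i) = i := by
  unfold cnt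
  have : (univ.filter fun j => s j < s i) = Finset.Iio i := by
    ext j
    rw [mem_filter, mem_Iio]
    simp [hs.lt_iff_lt]
  rw [this, Fin.card_Iio]

theorem cnt_succ_of_not (m : ℕ) (h : ¬ ∃ i, s i = m) : cnt s (m + 1) = cnt s m := by
  unfold cnt
  congr 1
  ext j
  simp only [mem_filter, mem_univ, true_and]
  have : s j ≠ m := fun hh => h ⟨j, hh⟩
  omega

theorem cnt_succ_of_mem (hs : StrictMono s) (i : Fin n) : cnt s (s i + 1) = i + 1 := by
  unfold cnt
  have : (univ.filter fun j => s j < s i + 1) = Finset.Iic i := by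
    ext j
    rw [mem_filter, mem_Iic]
    simp [hs.le_iff_le]
  rw [this, Fin.card_Iic]

theorem lc_eq (hs : StrictMono s) (π : Equiv.Perm (Fin n))
    (hπ : ∀ i j, π i < π j ↔ f (s i) < f (s j)) (t : Fin n) : lc π t = cS s (s t) := by
  unfold lc cS
  congr 1
  ext j
  simp only [mem_filter, mem_univ, true_and, hπ, hs.lt_iff_lt]

theorem V_eq (hs : StrictMono s) (π : Equiv.Perm (Fin n))
    (hπ : ∀ i j, π i < π j ↔ f (s i) < f (s j)) (m : ℕ) :
    V s m = (code π).take (cnt s m) := by
  induction m with
  | zero => simp [V, cnt]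
  | succ m ih =>
    rw [V, ih]
    split_ifs with h
    · obtain ⟨i, rfl⟩ := h
      rw [cnt_succ_of_mem s hs, cnt_eq s hs]
      have hlen : (i : ℕ) < (code π).length := by
        unfold code
        rw [List.length_ofFn]
        exact i.isLt
      rw [List.take_succ_eq_append_getElem hlen]
      have hget : (code π)[(i : ℕ)] = cS s (s i) := by
        rw [← lc_eq s hs π hπ i]
        simp [code]
      rw [hget]
    · rw [cnt_succ_of_not s m h, List.append_nil]

theorem V_all (hs : StrictMono s) (π : Equiv.Perm (Fin n))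
    (hπ : ∀ i j, π i < π j ↔ f (s i) < f (s j)) (m : ℕ) (hm : ∀ i, s i < m) :
    V s m = code π := by
  rw [V_eq s hs π hπ]
  have : cnt s m = n := by
    unfold cnt
    rw [Finset.filter_true_of_mem (fun i _ => hm i), card_univ, Fintype.card_fin]
  rw [this, List.take_of_length_le]
  unfold code
  rw [List.length_ofFn]

/-- the letters emitted by a block -/
def emit (β a b c : Bool) : List ℕ :=
  (if a then [0] else []) ++ ((if b then [0] else []) ++
    (if c then [β.toNat + a.toNat + b.toNat] else []))

open Classical in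
/-- membership of `3N-2` -/
noncomputable def bet (N : ℕ) : Bool := decide (∃ i, s i + 2 = 3 * N)

open Classical in
/-- membership of `m` -/
noncomputable def mm (m : ℕ) : Bool := decide (∃ i, s i = m)

theorem card_single (hs : StrictMono s) (p : ℕ → Prop) [DecidablePred p] (m : ℕ)
    (h : ∀ x, p x ↔ x = m) : #(univ.filter fun i => p (s i)) = (mm s m).toNat := by
  classical
  unfold mm
  by_cases hm : ∃ i, s i = m
  · obtain ⟨i, hi⟩ := hm
    have : (univ.filter fun j => p (s j)) = {i} := by
      ext j
      rw [mem_filter, mem_singleton, h]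
      constructor
      · rintro ⟨_, hj⟩
        exact hs.injective (hj.trans hi.symm)
      · rintro rfl
        exact ⟨mem_univ _, hi⟩
    rw [this, card_singleton, decide_eq_true ⟨i, hi⟩]
    rfl
  · have : (univ.filter fun j => p (s j)) = ∅ := by
      rw [Finset.filter_eq_empty_iff]
      intro j _
      rw [h]
      exact fun hj => hm ⟨j, hj⟩
    rw [this, card_empty, decide_eq_false hm]
    rfl

theorem cS_zero (N : ℕ) : cS s (3 * N) = 0 := by
  unfold cS
  rw [card_eq_zero, Finset.filter_eq_empty_iff]
  intro i _ h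
  rcases f_cases (s i) with ha | ha | ha <;> rcases f_cases (3 * N) with hb | hb | hb <;> omega

theorem cS_one (N : ℕ) : cS s (3 * N + 1) = 0 := by
  unfold cS
  rw [card_eq_zero, Finset.filter_eq_empty_iff]
  intro i _ h
  rcases f_cases (s i) with ha | ha | ha <;> rcases f_cases (3 * N + 1) with hb | hb | hb <;> omega

theorem cS_two (hs : StrictMono s) (N : ℕ) :
    cS s (3 * N + 2) = (bet s N).toNat + (mm s (3 * N)).toNat + (mm s (3 * N + 1)).toNat := by
  classical
  have hb : (bet s N).toNat = #(univ.filter fun i => s i + 2 = 3 * N) := by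
    rcases Nat.eq_zero_or_pos N with h0 | h0
    · subst h0
      unfold bet
      have h1 : ¬ ∃ i, s i + 2 = 3 * 0 := by
        rintro ⟨i, hi⟩; omega
      rw [decide_eq_false h1]
      symm
      show _ = 0
      rw [card_eq_zero, Finset.filter_eq_empty_iff]
      intro i _ hi
      exact h1 ⟨i, hi⟩
    · rw [card_single s hs (fun x => x + 2 = 3 * N) (3 * N - 2) (fun x => by omega)]
      unfold bet mm
      congr 2
      apply propext
      constructor
      · rintro ⟨i, hi⟩; exact ⟨i, by omega⟩
      · rintro ⟨i, hi⟩; exact ⟨i, by omega⟩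
  rw [hb, ← card_single s hs (fun x => x = 3 * N) (3 * N) (fun x => Iff.rfl),
    ← card_single s hs (fun x => x = 3 * N + 1) (3 * N + 1) (fun x => Iff.rfl)]
  unfold cS
  rw [← card_union_of_disjoint, ← card_union_of_disjoint]
  · congr 1
    ext i
    simp only [mem_filter, mem_univ, true_and, mem_union]
    rcases f_cases (s i) with ha | ha | ha <;> rcases f_cases (3 * N + 2) with hb | hb | hb <;>
      omega
  · rw [Finset.disjoint_left]
    intro i hi hi'
    simp only [mem_filter, mem_univ, true_and, mem_union] at hi hi'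
    omega
  · rw [Finset.disjoint_left]
    intro i hi hi'
    simp only [mem_filter, mem_univ, true_and] at hi hi'
    omega

theorem V_block (hs : StrictMono s) (N : ℕ) :
    V s (3 * (N + 1)) = V s (3 * N) ++
      emit (bet s N) (mm s (3 * N)) (mm s (3 * N + 1)) (mm s (3 * N + 2)) := by
  have h : 3 * (N + 1) = 3 * N + 1 + 1 + 1 := by ring
  rw [h, V, V, V, cS_zero, cS_one, cS_two s hs, List.append_assoc, List.append_assoc]
  congr 1
  unfold emit
  congr 1
  · unfold mm
    by_cases h : ∃ i, s i = 3 * N <;> simp [h]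
  · congr 1
    · by_cases h : ∃ i, s i = 3 * N + 1
      · have : mm s (3 * N + 1) = true := by unfold mm; exact decide_eq_true h
        rw [this, if_pos h, if_pos rfl]
      · have : mm s (3 * N + 1) = false := by unfold mm; exact decide_eq_false h
        rw [this, if_neg h, if_neg (by simp)]
    · by_cases h : ∃ i, s i = 3 * N + 2
      · have : mm s (3 * N + 2) = true := by unfold mm; exact decide_eq_true h
        rw [this, if_pos (show ∃ i, s i = 3 * N + 1 + 1 from h), if_pos rfl]
      · have : mm s (3 * N + 2) = false := by unfold mm; exact decide_eq_false h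
        rw [this, if_neg (show ¬ ∃ i, s i = 3 * N + 1 + 1 from h), if_neg (by simp)]

theorem bet_zero : bet s 0 = false := by
  unfold bet
  apply decide_eq_false
  rintro ⟨i, hi⟩
  omega

theorem bet_succ (N : ℕ) : bet s (N + 1) = mm s (3 * N + 1) := by
  unfold bet mm
  congr 1
  apply propext
  constructor
  · rintro ⟨i, hi⟩; exact ⟨i, by omega⟩
  · rintro ⟨i, hi⟩; exact ⟨i, by omega⟩

end scan

/-! ### Automata -/

section automata

variable {σ : Type*} (δ : σ → ℕ → Option σ)

/-- run of a deterministic automaton -/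
def run : σ → List ℕ → Option σ
  | q, [] => some q
  | q, c :: w => (δ q c).bind fun q' => run q' w

theorem run_append (q : σ) (u w : List ℕ) :
    run δ q (u ++ w) = (run δ q u).bind fun q' => run δ q' w := by
  induction u generalizing q with
  | nil => simp [run]
  | cons c u ih =>
    simp only [List.cons_append, run]
    cases δ q c with
    | none => rfl
    | some q' => simp [ih]

/-- accepted words of given length -/
def acc : ℕ → σ → Finset (List ℕ)
  | 0, _ => {[]}
  | n + 1, q => (range 4).biUnion fun c =>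
      match δ q c with
      | none => ∅
      | some q' => (acc n q').image (List.cons c)

theorem mem_acc (hδ : ∀ q c, 4 ≤ c → δ q c = none) (w : List ℕ) :
    ∀ q, run δ q w ≠ none → w ∈ acc δ w.length q := by
  induction w with
  | nil => intro q _; simp [acc]
  | cons c w ih =>
    intro q h
    rw [run] at h
    rw [List.length_cons, acc, mem_biUnion]
    cases hq : δ q c with
    | none => rw [hq] at h; simp at h
    | some q' =>
      rw [hq] at h
      refine ⟨c, ?_, ?_⟩
      · rw [mem_range]
        by_contra hc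
        rw [hδ q c (by omega)] at hq
        simp at hq
      · rw [hq]
        exact mem_image_of_mem _ (ih q' h)

/-- value of the potential after a letter -/
def opt (v : σ → ℕ) : Option σ → ℕ
  | none => 0
  | some q => v q

theorem card_acc_le (v : σ → ℕ) (num den μ : ℕ) (hv : ∀ q, μ ≤ v q)
    (hstep : ∀ q, den * (opt v (δ q 0) + opt v (δ q 1) + opt v (δ q 2) + opt v (δ q 3))
      ≤ num * v q) :
    ∀ n q, μ * #(acc δ n q) * den ^ n ≤ num ^ n * v q := by
  intro n
  induction n with
  | zero =>
    intro q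
    simp only [acc, card_singleton, mul_one, pow_zero, one_mul]
    exact hv q
  | succ n ih =>
    intro q
    rw [acc]
    have h1 : #((range 4).biUnion fun c =>
        match δ q c with
        | none => (∅ : Finset (List ℕ))
        | some q' => (acc δ n q').image (List.cons c))
        ≤ ∑ c ∈ range 4, #(match δ q c with
        | none => (∅ : Finset (List ℕ))
        | some q' => (acc δ n q').image (List.cons c)) := Finset.card_biUnion_le
    have h2 : ∀ c, μ * #(match δ q c with
        | none => (∅ : Finset (List ℕ))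
        | some q' => (acc δ n q').image (List.cons c)) * den ^ n
          ≤ num ^ n * opt v (δ q c) := by
      intro c
      cases δ q c with
      | none => simp [opt]
      | some q' =>
        simp only [opt]
        refine le_trans ?_ (ih q')
        exact Nat.mul_le_mul_right _ (Nat.mul_le_mul_left _ Finset.card_image_le)
    calc μ * _ * den ^ (n + 1) ≤ μ * (∑ c ∈ range 4, #(match δ q c with
          | none => (∅ : Finset (List ℕ))
          | some q' => (acc δ n q').image (List.cons c))) * den ^ (n + 1) :=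
        Nat.mul_le_mul_right _ (Nat.mul_le_mul_left _ h1)
      _ = den * ∑ c ∈ range 4, μ * #(match δ q c with
          | none => (∅ : Finset (List ℕ))
          | some q' => (acc δ n q').image (List.cons c)) * den ^ n := by
        rw [Finset.mul_sum, Finset.sum_mul, Finset.mul_sum]
        apply Finset.sum_congr rfl
        intro c _
        ring
      _ ≤ den * ∑ c ∈ range 4, num ^ n * opt v (δ q c) :=
        Nat.mul_le_mul_left _ (Finset.sum_le_sum fun c _ => h2 c)
      _ = num ^ n * (den * (opt v (δ q 0) + opt v (δ q 1) + opt v (δ q 2) + opt v (δ q 3))) := by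
        simp only [Finset.sum_range_succ, Finset.sum_range_zero]
        ring
      _ ≤ num ^ n * (num * v q) := Nat.mul_le_mul_left _ (hstep q)
      _ = num ^ (n + 1) * v q := by ring

end automata

/-! ### Upper bound for the class -/

/-- automaton for the codes of the class -/
def δD (q : Fin 5) (c : ℕ) : Option (Fin 5) :=
  match q, c with
  | 0, 0 => some 1
  | 1, 0 => some 2
  | 1, 1 => some 3
  | 2, 0 => some 2
  | 2, 1 => some 3
  | 2, 2 => some 3
  | 2, 3 => some 3
  | 3, 0 => some 4
  | 3, 1 => some 0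
  | 4, 0 => some 2
  | 4, 1 => some 3
  | 4, 2 => some 3
  | _, _ => none

theorem δD_big (q : Fin 5) (c : ℕ) (hc : 4 ≤ c) : δD q c = none := by
  obtain ⟨k, rfl⟩ := Nat.exists_eq_add_of_le hc
  rw [Nat.add_comm]
  fin_cases q <;> rfl

theorem blockD : ∀ (q : Fin 5) (β a b c : Bool), (β = true → q ≠ 0) →
    ∃ q', run δD q (emit β a b c) = some q' ∧ (b = true → q' ≠ 0) := by
  decide

theorem runD {n : ℕ} (s : Fin n → ℕ) (hs : StrictMono s) (N : ℕ) :
    ∃ q, run δD 0 (V s (3 * N)) = some q ∧ (bet s N = true → q ≠ 0) := by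
  induction N with
  | zero => exact ⟨0, by simp [V, run], by simp [bet_zero]⟩
  | succ N ih =>
    obtain ⟨q, hq, hb⟩ := ih
    obtain ⟨q', hq', hb'⟩ := blockD q (bet s N) (mm s (3 * N)) (mm s (3 * N + 1))
      (mm s (3 * N + 2)) hb
    refine ⟨q', ?_, ?_⟩
    · rw [V_block s hs, run_append, hq]
      exact hq'
    · rw [bet_succ]
      exact hb'

/-- potential -/
def vD (q : Fin 5) : ℕ :=
  match q with
  | 0 => 55
  | 1 => 132
  | 2 => 215
  | 3 => 100
  | 4 => 173

theorem card_accD (n : ℕ) : #(acc δD n 0) * 5 ^ n ≤ 12 ^ n := by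
  have h := card_acc_le δD vD 12 5 55 (by decide) (by decide) n 0
  have h0 : vD 0 = 55 := rfl
  rw [h0] at h
  have : 55 * (#(acc δD n 0) * 5 ^ n) ≤ 55 * 12 ^ n := by
    calc _ = 55 * #(acc δD n 0) * 5 ^ n := by ring
      _ ≤ _ := h
      _ = _ := by ring
  exact Nat.le_of_mul_le_mul_left this (by norm_num)

theorem exists_bound {n : ℕ} (s : Fin n → ℕ) : ∃ N, ∀ i, s i < 3 * N := by
  refine ⟨(univ.sup s) + 1, fun i => ?_⟩
  have := Finset.le_sup (f := s) (mem_univ i)
  omega

theorem card_C_le (n : ℕ) : (C n).ncard * 5 ^ n ≤ 12 ^ n := by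
  refine le_trans ?_ (card_accD n)
  apply Nat.mul_le_mul_right
  have h1 : (C n).ncard = (code '' C n).ncard :=
    (Set.ncard_image_of_injective _ code_injective).symm
  rw [h1]
  have h2 : code '' C n ⊆ (acc δD n 0 : Finset (List ℕ)) := by
    rintro w ⟨π, ⟨s, hs, hπ⟩, rfl⟩
    obtain ⟨N, hN⟩ := exists_bound s
    obtain ⟨q, hq, _⟩ := runD s hs N
    rw [V_all s hs π hπ _ hN] at hq
    have h3 := mem_acc δD δD_big (code π) 0 (by rw [hq]; simp)
    have hlen : (code π).length = n := by unfold code; rw [List.length_ofFn]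
    rw [hlen] at h3
    exact h3
  have h3 := Set.ncard_le_ncard h2 (Finset.finite_toSet _)
  rw [Set.ncard_coe_finset] at h3
  exact h3


/-! ### Indecomposables: upper bound -/

theorem perm_compl {n : ℕ} (π : Equiv.Perm (Fin n)) (A : Finset (Fin n))
    (h : ∀ i ∈ A, π i ∈ A) (j : Fin n) (hj : j ∉ A) : π j ∉ A := by
  intro hπ
  have h1 : A.map π.toEmbedding = A := by
    apply Finset.eq_of_subset_of_card_le
    · intro x hx
      rw [mem_map] at hx
      obtain ⟨i, hi, rfl⟩ := hx
      exact h i hi
    · rw [Finset.card_map]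
  rw [← h1, mem_map] at hπ
  obtain ⟨i, hi, hij⟩ := hπ
  have : i = j := π.injective hij
  rw [this] at hi
  exact hj hi

theorem crossing {n : ℕ} (π : Equiv.Perm (Fin n)) (hπ : Indecomposable π) (t : ℕ) (ht : 0 < t)
    (htn : t < n) : ∃ i j : Fin n, (i : ℕ) < t ∧ t ≤ (j : ℕ) ∧ π j < π i := by
  obtain ⟨i, hi, hi'⟩ := hπ.2 t ht htn
  by_contra hcon
  push Not at hcon
  have h1 : ∀ j ∈ (univ.filter fun j : Fin n => t ≤ (j : ℕ)), π j ∈
      (univ.filter fun j : Fin n => t ≤ (j : ℕ)) := by
    intro j hj
    rw [mem_filter] at hj ⊢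
    refine ⟨mem_univ _, ?_⟩
    have := hcon i j hi hj.2
    rw [Fin.le_def] at this
    omega
  have h2 := perm_compl π _ h1 i (by
    rw [mem_filter]
    rintro ⟨_, hh⟩
    omega)
  apply h2
  rw [mem_filter]
  exact ⟨mem_univ _, hi'⟩

theorem lt_cnt_iff {n : ℕ} (s : Fin n → ℕ) (hs : StrictMono s) (x : ℕ) (i : Fin n) :
    (i : ℕ) < cnt s x ↔ s i < x := by
  unfold cnt
  constructor
  · intro h
    by_contra hx
    have h1 : (univ.filter fun j => s j < x) ⊆ Finset.Iio i := by
      intro j hj
      rw [mem_filter] at hj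
      rw [mem_Iio, ← hs.lt_iff_lt]
      omega
    have h2 := Finset.card_le_card h1
    rw [Fin.card_Iio] at h2
    omega
  · intro h
    have h1 : Finset.Iic i ⊆ (univ.filter fun j => s j < x) := by
      intro j hj
      rw [mem_Iic, ← hs.le_iff_le] at hj
      rw [mem_filter]
      exact ⟨mem_univ _, by omega⟩
    have h2 := Finset.card_le_card h1
    rw [Fin.card_Iic] at h2
    omega

theorem crossing_s {n : ℕ} (π : Equiv.Perm (Fin n)) (hπ : Indecomposable π) (s : Fin n → ℕ)
    (hs : StrictMono s) (hsπ : ∀ i j, π i < π j ↔ f (s i) < f (s j)) (x : ℕ)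
    (h1 : ∃ i, s i < x) (h2 : ∃ j, x ≤ s j) :
    ∃ i j, s i < x ∧ x ≤ s j ∧ f (s j) < f (s i) := by
  obtain ⟨a, ha⟩ := h1
  obtain ⟨b, hb⟩ := h2
  have h3 : 0 < cnt s x := by
    have := (lt_cnt_iff s hs x a).mpr ha
    omega
  have h4 : cnt s x < n := by
    by_contra hcon
    have : (b : ℕ) < cnt s x := lt_of_lt_of_le b.isLt (not_lt.mp hcon)
    rw [lt_cnt_iff s hs] at this
    omega
  obtain ⟨i, j, hi, hj, hij⟩ := crossing π hπ _ h3 h4
  refine ⟨i, j, (lt_cnt_iff s hs x i).mp hi, ?_, (hsπ j i).mp hij⟩
  by_contra hcon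
  rw [not_le, ← lt_cnt_iff s hs] at hcon
  omega

/-- automaton for the codes of the indecomposables -/
def δE (q : Fin 6) (c : ℕ) : Option (Fin 6) :=
  match q, c with
  | 0, 0 => some 1
  | 1, 0 => some 2
  | 1, 1 => some 4
  | 2, 0 => some 3
  | 2, 2 => some 4
  | 3, 3 => some 4
  | 4, 0 => some 2
  | 4, 1 => some 5
  | _, _ => none

theorem δE_big (q : Fin 6) (c : ℕ) (hc : 4 ≤ c) : δE q c = none := by
  obtain ⟨k, rfl⟩ := Nat.exists_eq_add_of_le hc
  rw [Nat.add_comm]
  fin_cases q <;> rfl

theorem blockE1 : ∀ (a b c : Bool), (a = true → c = true) → (a = true ∨ b = true) →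
    ∃ q', run δE 0 (emit false a b c) = some q' ∧ (q' = 1 ∨ q' = 4) := by
  decide

theorem blockE2 : ∀ (q : Fin 6) (a b : Bool), (q = 1 ∨ q = 4) →
    ∃ q', run δE q (emit true a b true) = some q' ∧
      ((a = true ∨ b = true) → (q' = 1 ∨ q' = 4)) := by
  decide

/-- potential -/
def vE (q : Fin 6) : ℕ :=
  match q with
  | 0 => 95
  | 1 => 142
  | 2 => 112
  | 3 => 67
  | 4 => 100
  | 5 => 38

theorem card_accE (n : ℕ) : 38 * #(acc δE n 0) * 2 ^ n ≤ 3 ^ n * 95 :=
  card_acc_le δE vE 3 2 38 (by decide) (by decide) n 0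

theorem mm_true_iff {n : ℕ} (s : Fin n → ℕ) (m : ℕ) : mm s m = true ↔ ∃ i, s i = m := by
  unfold mm
  exact decide_eq_true_iff

theorem mm_false_iff {n : ℕ} (s : Fin n → ℕ) (m : ℕ) : mm s m = false ↔ ∀ i, s i ≠ m := by
  unfold mm
  rw [decide_eq_false_iff_not]
  push Not
  exact Iff.rfl

theorem runE {n : ℕ} (hn : 2 ≤ n) (π : Equiv.Perm (Fin n)) (hπ : Indecomposable π)
    (s : Fin n → ℕ) (hs : StrictMono s) (hsπ : ∀ i j, π i < π j ↔ f (s i) < f (s j)) (N : ℕ) :
    ∃ q, run δE 0 (V s (3 * N)) = some q ∧ ((¬ ∃ i, s i < 3 * N) → q = 0) ∧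
      ((∃ i, s i < 3 * N) → (∃ j, 3 * N ≤ s j) → (q = 1 ∨ q = 4)) := by
  induction N with
  | zero =>
    refine ⟨0, by simp [V, run], fun _ => rfl, ?_⟩
    rintro ⟨i, hi⟩
    omega
  | succ N ih =>
    obtain ⟨q, hq, hq0, hq1⟩ := ih
    rw [V_block s hs, run_append, hq]
    show ∃ q', run δE q _ = some q' ∧ _
    by_cases hmore : ∃ j, 3 * N ≤ s j
    · by_cases hst : ∃ i, s i < 3 * N
      · -- in progress
        obtain ⟨i, j, hi, hj, hij⟩ := crossing_s π hπ s hs hsπ (3 * N) hst hmore
        have hij' : s i + 2 = 3 * N ∧ s j = 3 * N + 2 := by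
          rcases f_cases (s i) with ha | ha | ha <;> rcases f_cases (s j) with hb | hb | hb <;>
            omega
        have hbet : bet s N = true := by
          unfold bet
          exact decide_eq_true ⟨i, hij'.1⟩
        have hc : mm s (3 * N + 2) = true := (mm_true_iff s _).mpr ⟨j, hij'.2⟩
        rw [hbet, hc]
        obtain ⟨q', h1, h2⟩ := blockE2 q (mm s (3 * N)) (mm s (3 * N + 1)) (hq1 hst hmore)
        refine ⟨q', h1, ?_, ?_⟩
        · intro h
          exact absurd ⟨i, by omega⟩ h
        · intro h3 h4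
          apply h2
          right
          obtain ⟨i', j', hi', hj', hij''⟩ := crossing_s π hπ s hs hsπ (3 * (N + 1)) h3 h4
          rw [mm_true_iff]
          refine ⟨i', ?_⟩
          rcases f_cases (s i') with ha | ha | ha <;> rcases f_cases (s j') with hb | hb | hb <;>
            omega
      · -- not started
        have hq := hq0 hst
        subst hq
        push Not at hst
        have hbet : bet s N = false := by
          unfold bet
          apply decide_eq_false
          rintro ⟨i, hi⟩
          have := hst i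
          omega
        rw [hbet]
        by_cases hemp : mm s (3 * N) = false ∧ mm s (3 * N + 1) = false ∧
            mm s (3 * N + 2) = false
        · rw [hemp.1, hemp.2.1, hemp.2.2]
          refine ⟨0, rfl, fun _ => rfl, ?_⟩
          rintro ⟨i, hi⟩
          exfalso
          have h1 := hst i
          have h2 := (mm_false_iff s _).mp hemp.1 i
          have h3 := (mm_false_iff s _).mp hemp.2.1 i
          have h4 := (mm_false_iff s _).mp hemp.2.2 i
          omega
        · -- other indices exist
          have hother : ∀ i : Fin n, ∃ j : Fin n, s j ≠ s i := by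
            intro i
            by_cases h0 : (i : ℕ) = 0
            · refine ⟨⟨1, by omega⟩, ?_⟩
              intro h
              have := hs.injective h
              rw [← this] at h0
              simp at h0
            · refine ⟨⟨0, by omega⟩, ?_⟩
              intro h
              have := hs.injective h
              rw [← this] at h0
              simp at h0
          have hac : mm s (3 * N) = true → mm s (3 * N + 2) = true := by
            rw [mm_true_iff, mm_true_iff]
            rintro ⟨i, hi⟩
            obtain ⟨j, hj⟩ := hother i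
            have hj2 := hst j
            obtain ⟨i', j', hi', hj', hij'⟩ := crossing_s π hπ s hs hsπ (3 * N + 1)
              ⟨i, by omega⟩ ⟨j, by omega⟩
            have hi2 := hst i'
            refine ⟨j', ?_⟩
            rcases f_cases (s i') with ha | ha | ha <;> rcases f_cases (s j') with hb | hb | hb <;>
              omega
          have hab : mm s (3 * N) = true ∨ mm s (3 * N + 1) = true := by
            by_contra hcon
            rw [not_or, Bool.not_eq_true, Bool.not_eq_true] at hcon
            have hc : mm s (3 * N + 2) = true := by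
              by_contra hc
              rw [Bool.not_eq_true] at hc
              exact hemp ⟨hcon.1, hcon.2, hc⟩
            obtain ⟨i, hi⟩ := (mm_true_iff s _).mp hc
            obtain ⟨j, hj⟩ := hother i
            have hj2 := hst j
            have hj3 := (mm_false_iff s _).mp hcon.1 j
            have hj4 := (mm_false_iff s _).mp hcon.2 j
            obtain ⟨i', j', hi', hj', hij'⟩ := crossing_s π hπ s hs hsπ (3 * N + 3)
              ⟨i, by omega⟩ ⟨j, by omega⟩
            have hi2 := hst i'
            have hi3 := (mm_false_iff s _).mp hcon.1 i'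
            have hi4 := (mm_false_iff s _).mp hcon.2 i'
            rcases f_cases (s i') with ha | ha | ha <;> rcases f_cases (s j') with hb | hb | hb <;>
              omega
          obtain ⟨q', h1, h2⟩ := blockE1 _ _ _ hac hab
          refine ⟨q', h1, ?_, fun _ _ => h2⟩
          intro h
          exfalso
          apply h
          rcases hab with h3 | h3
          · obtain ⟨i, hi⟩ := (mm_true_iff s _).mp h3
            exact ⟨i, by omega⟩
          · obtain ⟨i, hi⟩ := (mm_true_iff s _).mp h3
            exact ⟨i, by omega⟩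
    · -- finished
      push Not at hmore
      have h1 : mm s (3 * N) = false := (mm_false_iff s _).mpr fun i => by
        have := hmore i; omega
      have h2 : mm s (3 * N + 1) = false := (mm_false_iff s _).mpr fun i => by
        have := hmore i; omega
      have h3 : mm s (3 * N + 2) = false := (mm_false_iff s _).mpr fun i => by
        have := hmore i; omega
      rw [h1, h2, h3]
      refine ⟨q, rfl, ?_, ?_⟩
      · intro h
        apply hq0
        rintro ⟨i, hi⟩
        exact h ⟨i, by omega⟩
      · rintro _ ⟨j, hj⟩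
        have := hmore j
        omega

theorem card_ind_le (n : ℕ) : 38 * (ind C n).ncard * 2 ^ n ≤ 3 ^ n * 95 := by
  rcases Nat.lt_or_ge n 2 with hn | hn
  · have h1 : (ind C n).ncard ≤ 1 := by
      have h2 : (ind C n).ncard ≤ (Set.univ : Set (Equiv.Perm (Fin n))).ncard :=
        Set.ncard_le_ncard (Set.subset_univ _) Set.finite_univ
      rw [Set.ncard_univ, Nat.card_eq_fintype_card, Fintype.card_perm, Fintype.card_fin] at h2
      interval_cases n
      · simpa using h2
      · simpa using h2
    interval_cases n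
    · omega
    · omega
  · refine le_trans ?_ (card_accE n)
    apply Nat.mul_le_mul_right
    apply Nat.mul_le_mul_left
    have h1 : (ind C n).ncard = (code '' ind C n).ncard :=
      (Set.ncard_image_of_injective _ code_injective).symm
    rw [h1]
    have h2 : code '' ind C n ⊆ (acc δE n 0 : Finset (List ℕ)) := by
      rintro w ⟨π, ⟨⟨s, hs, hπ⟩, hind⟩, rfl⟩
      obtain ⟨N, hN⟩ := exists_bound s
      obtain ⟨q, hq, _⟩ := runE hn π hind s hs hπ N
      rw [V_all s hs π hπ _ hN] at hq
      have h3 := mem_acc δE δE_big (code π) 0 (by rw [hq]; simp)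
      have hlen : (code π).length = n := by unfold code; rw [List.length_ofFn]
      rw [hlen] at h3
      exact h3
    have h3 := Set.ncard_le_ncard h2 (Finset.finite_toSet _)
    rw [Set.ncard_coe_finset] at h3
    exact h3

/-! ### Lower bound for the indecomposables -/

theorem exists_perm {n : ℕ} (g : Fin n → ℕ) (hg : Function.Injective g) :
    ∃ π : Equiv.Perm (Fin n), ∀ i j, π i < π j ↔ g i < g j := by
  refine ⟨(Tuple.sort g).symm, ?_⟩
  have hm : StrictMono (g ∘ Tuple.sort g) :=
    (Tuple.monotone_sort g).strictMono_of_injective (hg.comp (Tuple.sort g).injective)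
  intro i j
  have h := hm.lt_iff_lt (a := (Tuple.sort g).symm i) (b := (Tuple.sort g).symm j)
  simp only [Function.comp_apply, Equiv.apply_symm_apply] at h
  exact h.symm

/-- positions of the long indecomposables -/
def sN (x : ℕ → Bool) (i : ℕ) : ℕ :=
  if i = 0 then 1
  else 6 * ((i - 1) / 5) + 4 + (i - 1) % 5 -
    (if x ((i - 1) / 5) = true ∧ (i - 1) % 5 ≤ 2 then 1 else 0)

theorem sN_at (x : ℕ → Bool) (r k : ℕ) (hk : k < 5) :
    sN x (5 * r + 1 + k) = 6 * r + 4 + k - (if x r = true ∧ k ≤ 2 then 1 else 0) := by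
  unfold sN
  have h1 : (5 * r + 1 + k - 1) / 5 = r := by omega
  have h2 : (5 * r + 1 + k - 1) % 5 = k := by omega
  rw [if_neg (by omega), h1, h2]

theorem sN_zero (x : ℕ → Bool) : sN x 0 = 1 := rfl

theorem sN_mono (x : ℕ → Bool) : StrictMono (sN x) := by
  apply strictMono_nat_of_lt_succ
  intro i
  rcases Nat.eq_zero_or_pos i with h0 | h0
  · subst h0
    have h := sN_at x 0 0 (by norm_num)
    simp only [mul_zero, zero_add, add_zero] at h
    rw [sN_zero, h]
    split_ifs <;> omega
  · obtain ⟨r, k, hk, hi⟩ : ∃ r k, k < 5 ∧ i = 5 * r + 1 + k :=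
      ⟨(i - 1) / 5, (i - 1) % 5, Nat.mod_lt _ (by norm_num), by omega⟩
    subst hi
    rcases Nat.lt_or_ge k 4 with h4 | h4
    · rw [add_assoc (5 * r + 1) k 1, sN_at x r k hk, sN_at x r (k + 1) (by omega)]
      by_cases hx : x r = true
      · simp only [hx, true_and]
        split_ifs <;> omega
      · rw [if_neg (fun h => hx h.1), if_neg (fun h => hx h.1)]
        omega
    · have hk4 : k = 4 := by omega
      subst hk4
      have h5 : 5 * r + 1 + 4 + 1 = 5 * (r + 1) + 1 + 0 := by ring
      rw [h5, sN_at x r 4 hk, sN_at x (r + 1) 0 (by norm_num)]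
      split_ifs <;> omega

theorem exists_B (x : ℕ → Bool) (m J : ℕ) (hJ : J ≤ 2 * m) :
    ∃ i, i < 5 * m + 1 ∧ sN x i = 3 * J + 1 := by
  rcases Nat.eq_zero_or_pos J with h0 | h0
  · exact ⟨0, by omega, by rw [sN_zero]; omega⟩
  · obtain ⟨r, hr⟩ : ∃ r, J = 2 * r + 1 ∨ J = 2 * r + 2 := ⟨(J - 1) / 2, by omega⟩
    rcases hr with hr | hr
    · by_cases hx : x r = true
      · exact ⟨5 * r + 1 + 1, by omega, by rw [sN_at x r 1 (by norm_num), if_pos ⟨hx, by norm_num⟩]; omega⟩
      · exact ⟨5 * r + 1 + 0, by omega, by rw [sN_at x r 0 (by norm_num), if_neg (fun h => hx h.1)]; omega⟩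
    · exact ⟨5 * r + 1 + 3, by omega, by rw [sN_at x r 3 (by norm_num), if_neg (by omega)]; omega⟩

theorem exists_C (x : ℕ → Bool) (m J : ℕ) (hJ : J ≤ 2 * m) (hJ1 : 1 ≤ J) :
    ∃ i, i < 5 * m + 1 ∧ sN x i = 3 * J + 2 := by
  obtain ⟨r, hr⟩ : ∃ r, J = 2 * r + 1 ∨ J = 2 * r + 2 := ⟨(J - 1) / 2, by omega⟩
  rcases hr with hr | hr
  · by_cases hx : x r = true
    · exact ⟨5 * r + 1 + 2, by omega, by rw [sN_at x r 2 (by norm_num), if_pos ⟨hx, by norm_num⟩]; omega⟩
    · exact ⟨5 * r + 1 + 1, by omega, by rw [sN_at x r 1 (by norm_num), if_neg (fun h => hx h.1)]; omega⟩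
  · exact ⟨5 * r + 1 + 4, by omega, by rw [sN_at x r 4 (by norm_num), if_neg (by omega)]; omega⟩

theorem sN_ge (x : ℕ → Bool) (i : ℕ) (hi : 1 ≤ i) : 3 ≤ sN x i := by
  have h := (sN_mono x).monotone hi
  have h2 := sN_at x 0 0 (by norm_num)
  simp only [mul_zero, zero_add, add_zero] at h2
  rw [h2] at h
  split_ifs at h <;> omega

theorem sN_le (x : ℕ → Bool) (m i : ℕ) (hi : i < 5 * m + 1) : sN x i ≤ 6 * m + 2 := by
  rcases Nat.eq_zero_or_pos i with h0 | h0
  · subst h0; rw [sN_zero]; omega
  · unfold sN
    rw [if_neg (by omega)]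
    omega

/-- the embedding -/
def sF (m : ℕ) (x : ℕ → Bool) (i : Fin (5 * m + 1)) : ℕ := sN x i

theorem sF_mono (m : ℕ) (x : ℕ → Bool) : StrictMono (sF m x) :=
  fun _ _ h => sN_mono x h

/-- The long indecomposable with pendants given by `x`. -/
noncomputable def big (m : ℕ) (x : ℕ → Bool) : Equiv.Perm (Fin (5 * m + 1)) :=
  Classical.choose (exists_perm (f ∘ sF m x) (f_inj.comp (sF_mono m x).injective))

theorem big_spec (m : ℕ) (x : ℕ → Bool) (i j : Fin (5 * m + 1)) :
    big m x i < big m x j ↔ f (sF m x i) < f (sF m x j) :=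
  Classical.choose_spec (exists_perm (f ∘ sF m x) (f_inj.comp (sF_mono m x).injective)) i j

theorem big_mem (m : ℕ) (x : ℕ → Bool) : big m x ∈ ind C (5 * m + 1) := by
  refine ⟨⟨sF m x, sF_mono m x, big_spec m x⟩, Nat.succ_pos _, ?_⟩
  intro t ht htn
  by_contra hcon
  push Not at hcon
  -- the cut t separates
  have h1 := perm_compl (big m x) (univ.filter fun i : Fin (5 * m + 1) => (i : ℕ) < t) (by
    intro i hi
    rw [mem_filter] at hi ⊢
    exact ⟨mem_univ _, hcon i hi.2⟩)
  have hsep : ∀ i j : Fin (5 * m + 1), (i : ℕ) < t → t ≤ (j : ℕ) → big m x i < big m x j := by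
    intro i j hi hj
    have h2 := h1 j (by rw [mem_filter]; rintro ⟨_, hh⟩; omega)
    rw [mem_filter] at h2
    have h3 := hcon i hi
    rw [Fin.lt_def]
    by_contra hlt
    exact h2 ⟨mem_univ _, by omega⟩
  have hge := sN_ge x t ht
  have hle := sN_le x m t htn
  obtain ⟨i, hi, hi'⟩ := exists_B x m (sN x t / 3 - 1) (by omega)
  obtain ⟨j, hj, hj'⟩ := exists_C x m (sN x t / 3) (by omega) (by omega)
  have hit : i < t := (sN_mono x).lt_iff_lt.mp (by omega)
  have htj : t ≤ j := (sN_mono x).le_iff_le.mp (by omega)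
  have h4 := hsep ⟨i, hi⟩ ⟨j, hj⟩ hit htj
  rw [big_spec] at h4
  unfold sF at h4
  simp only at h4
  rw [hi', hj'] at h4
  rcases f_cases (3 * (sN x t / 3 - 1) + 1) with ha | ha | ha <;>
    rcases f_cases (3 * (sN x t / 3) + 2) with hb | hb | hb <;> omega

theorem big_inj (m : ℕ) (x y : ℕ → Bool) (h : big m x = big m y) (r : ℕ) (hr : r < m) :
    x r = y r := by
  have key : ∀ x : ℕ → Bool, (lc (big m x) ⟨5 * r + 1 + 2, by omega⟩ ≠ 0) ↔ x r = true := by
    intro x
    rw [lc_eq (sF m x) (sF_mono m x) (big m x) (big_spec m x)]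
    by_cases hx : x r = true
    · have h1 : sF m x ⟨5 * r + 1 + 2, by omega⟩ = 3 * (2 * r + 1) + 2 := by
        unfold sF
        simp only
        rw [sN_at x r 2 (by norm_num), if_pos ⟨hx, by norm_num⟩]
        omega
      rw [h1, cS_two _ (sF_mono m x)]
      have h2 : mm (sF m x) (3 * (2 * r + 1) + 1) = true := by
        rw [mm_true_iff]
        refine ⟨⟨5 * r + 1 + 1, by omega⟩, ?_⟩
        unfold sF
        simp only
        rw [sN_at x r 1 (by norm_num), if_pos ⟨hx, by norm_num⟩]
        omega
      rw [h2]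
      simp [hx]
    · have h1 : sF m x ⟨5 * r + 1 + 2, by omega⟩ = 3 * (2 * r + 2) := by
        unfold sF
        simp only
        rw [sN_at x r 2 (by norm_num), if_neg (fun hh => hx hh.1)]
        omega
      rw [h1, cS_zero]
      simp [hx]
  have h1 := key x
  rw [h, key y] at h1
  exact Bool.eq_iff_iff.mpr h1.symm

theorem two_pow_le (m : ℕ) : 2 ^ m ≤ (ind C (5 * m + 1)).ncard := by
  classical
  let F : (Fin m → Bool) → Equiv.Perm (Fin (5 * m + 1)) :=
    fun y => big m (fun r => if h : r < m then y ⟨r, h⟩ else false)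
  have hF : Function.Injective F := by
    intro y z h
    funext r
    have := big_inj m _ _ h r r.isLt
    simpa using this
  have h1 : (Set.range F).ncard = 2 ^ m := by
    rw [← Set.image_univ, Set.ncard_image_of_injective _ hF, Set.ncard_univ]
    simp
  rw [← h1]
  apply Set.ncard_le_ncard _ (Set.toFinite _)
  rintro _ ⟨y, rfl⟩
  exact big_mem m _


/-! ### Growth rates -/

open Filter Topology

theorem upper_of_le (a : ℕ → ℕ) (p q : ℕ) (hq : q ≠ 0)
    (h : ∀ᶠ n in atTop, a n * q ^ n ≤ p ^ n) :
    Filter.limsup (fun n : ℕ => ((a n : ENNReal)) ^ (1 / (n : ℝ))) atTop ≤ (p : ENNReal) / q := by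
  apply Filter.limsup_le_of_le
  · isBoundedDefault
  · filter_upwards [h, eventually_gt_atTop 0] with n hn hn0
    have hq0 : (q : ENNReal) ≠ 0 := by exact_mod_cast hq
    have hqt : (q : ENNReal) ≠ ⊤ := ENNReal.natCast_ne_top q
    have h1 : (a n : ENNReal) ≤ ((p : ENNReal) / q) ^ (n : ℝ) := by
      rw [ENNReal.rpow_natCast, div_eq_mul_inv, mul_pow, ← ENNReal.inv_pow, ← div_eq_mul_inv,
        ENNReal.le_div_iff_mul_le (Or.inl (pow_ne_zero _ hq0))
          (Or.inl (ENNReal.pow_ne_top hqt))]
      exact_mod_cast hn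
    have hn' : (n : ℝ) ≠ 0 := by exact_mod_cast hn0.ne'
    calc (a n : ENNReal) ^ (1 / (n : ℝ)) ≤ (((p : ENNReal) / q) ^ (n : ℝ)) ^ (1 / (n : ℝ)) :=
          ENNReal.rpow_le_rpow h1 (by positivity)
      _ = (p : ENNReal) / q := by
        rw [← ENNReal.rpow_mul, mul_one_div_cancel hn', ENNReal.rpow_one]

theorem upper_ind_le : upperGr (ind C) ≤ (8 : ℕ) / (5 : ℕ) := by
  apply upper_of_le _ 8 5 (by norm_num)
  filter_upwards [eventually_ge_atTop 30] with n hn
  have h1 := card_ind_le n
  -- (16/15)^n >= 3
  have h2 : (1 + 1 / 15 : ℝ) ^ n ≥ 1 + n * (1 / 15) := one_add_mul_le_pow (by norm_num) n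
  have h3 : (30 : ℝ) ≤ n := by exact_mod_cast hn
  have h4 : (3 : ℝ) ≤ (16 / 15 : ℝ) ^ n := by
    have : (1 + 1 / 15 : ℝ) = 16 / 15 := by norm_num
    rw [this] at h2
    linarith
  have h5 : (38 : ℝ) * (ind C n).ncard * 2 ^ n ≤ 3 ^ n * 95 := by exact_mod_cast h1
  have h6 : (((ind C n).ncard : ℝ)) * 5 ^ n ≤ 8 ^ n := by
    have h7 : (8 : ℝ) ^ n = (16 / 15) ^ n * (3 / 2) ^ n * 5 ^ n := by
      rw [← mul_pow, ← mul_pow]; norm_num
    have h8 : ((ind C n).ncard : ℝ) ≤ 95 / 38 * (3 / 2) ^ n := by
      rw [div_pow]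
      rw [← mul_div_assoc, le_div_iff₀ (by positivity)]
      linarith
    rw [h7]
    apply mul_le_mul_of_nonneg_right _ (by positivity)
    have h9 : (0 : ℝ) ≤ (3 / 2) ^ n := by positivity
    nlinarith
  exact_mod_cast h6

theorem lower_ind : 1 < upperGr (ind C) := by
  have h1 : (2 : ENNReal) ^ (1 / 6 : ℝ) ≤ upperGr (ind C) := by
    unfold upperGr
    apply Filter.le_limsup_of_frequently_le
    · rw [Filter.frequently_atTop]
      intro N
      refine ⟨5 * (N + 1) + 1, by omega, ?_⟩
      have h2 := two_pow_le (N + 1)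
      have h3 : (2 : ENNReal) ^ ((N + 1 : ℕ) : ℝ) ≤ ((ind C (5 * (N + 1) + 1)).ncard : ENNReal) := by
        rw [ENNReal.rpow_natCast]
        exact_mod_cast h2
      calc (2 : ENNReal) ^ (1 / 6 : ℝ)
          ≤ (2 : ENNReal) ^ (((N + 1 : ℕ) : ℝ) * (1 / ((5 * (N + 1) + 1 : ℕ) : ℝ))) := by
            apply ENNReal.rpow_le_rpow_of_exponent_le (by norm_num)
            rw [mul_one_div, div_le_div_iff₀ (by norm_num) (by positivity)]
            push_cast
            have : (0 : ℝ) ≤ N := Nat.cast_nonneg N
            linarith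
        _ = ((2 : ENNReal) ^ ((N + 1 : ℕ) : ℝ)) ^ (1 / ((5 * (N + 1) + 1 : ℕ) : ℝ)) := by
            rw [ENNReal.rpow_mul]
        _ ≤ _ := ENNReal.rpow_le_rpow h3 (by positivity)
    · isBoundedDefault
  refine lt_of_lt_of_le ?_ h1
  exact ENNReal.one_lt_rpow (by norm_num) (by norm_num)

theorem one_mem_C (n : ℕ) : (1 : Equiv.Perm (Fin n)) ∈ C n := by
  refine ⟨fun i => 3 * i, fun i j h => ?_, fun i j => ?_⟩
  · rw [Fin.lt_def] at h
    simp only
    omega
  · simp only [Equiv.Perm.one_apply]
    rw [Fin.lt_def]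
    rcases f_cases (3 * i) with ha | ha | ha <;> rcases f_cases (3 * j) with hb | hb | hb <;> omega

theorem dsum_injective {k m : ℕ} :
    Function.Injective (fun p : Equiv.Perm (Fin k) × Equiv.Perm (Fin m) => dsum p.1 p.2) := by
  rintro ⟨σ, τ⟩ ⟨σ', τ'⟩ h
  simp only at h
  have h1 : σ = σ' := by
    ext i
    have := congrArg (fun ρ => ((ρ (Fin.castAdd m i) : Fin (k + m)) : ℕ)) h
    simp only [dsum_castAdd, Fin.val_castAdd] at this
    exact this
  have h2 : τ = τ' := by
    ext i
    have := congrArg (fun ρ => ((ρ (Fin.natAdd k i) : Fin (k + m)) : ℕ)) h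
    simp only [dsum_natAdd, Fin.val_natAdd] at this
    omega
  rw [h1, h2]

theorem super (k m : ℕ) : (C k).ncard * (C m).ncard ≤ (C (k + m)).ncard := by
  rw [← Set.ncard_prod]
  rw [← Set.ncard_image_of_injective _ (dsum_injective (k := k) (m := m))]
  apply Set.ncard_le_ncard _ (Set.toFinite _)
  rintro _ ⟨⟨σ, τ⟩, ⟨h1, h2⟩, rfl⟩
  exact sumClosed_C k m σ τ h1 h2

theorem ncard_pos (n : ℕ) : 0 < (C n).ncard :=
  (Set.ncard_pos (Set.toFinite _)).mpr ⟨1, one_mem_C n⟩

/-- The growth rate of the class exists and is at most `12/5`. -/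
theorem growth_C : ∃ g : ℝ, g ≤ 12 / 5 ∧
    Tendsto (fun n : ℕ => ((C n).ncard : ℝ) ^ (1 / (n : ℝ))) atTop (𝓝 g) := by
  have hsub : Subadditive (fun n => - Real.log ((C n).ncard : ℝ)) := by
    intro m n
    have h1 : (0 : ℝ) < (C m).ncard := by exact_mod_cast ncard_pos m
    have h2 : (0 : ℝ) < (C n).ncard := by exact_mod_cast ncard_pos n
    have h3 : ((C m).ncard : ℝ) * (C n).ncard ≤ (C (m + n)).ncard := by exact_mod_cast super m n
    have h4 := Real.log_le_log (by positivity) h3
    rw [Real.log_mul h1.ne' h2.ne'] at h4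
    linarith
  have hlog : ∀ n : ℕ, Real.log ((C n).ncard : ℝ) ≤ n * Real.log (12 / 5) := by
    intro n
    have h1 : (0 : ℝ) < (C n).ncard := by exact_mod_cast ncard_pos n
    have h2 : ((C n).ncard : ℝ) * 5 ^ n ≤ 12 ^ n := by exact_mod_cast card_C_le n
    have h3 : ((C n).ncard : ℝ) ≤ (12 / 5) ^ n := by
      rw [div_pow, le_div_iff₀ (by positivity)]
      exact h2
    have h4 := Real.log_le_log h1 h3
    rwa [Real.log_pow] at h4
  have hbdd : BddBelow (Set.range fun n : ℕ => (- Real.log ((C n).ncard : ℝ)) / n) := by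
    refine ⟨- Real.log (12 / 5), ?_⟩
    rintro _ ⟨n, rfl⟩
    rcases Nat.eq_zero_or_pos n with h0 | h0
    · subst h0
      simp only [Nat.cast_zero, div_zero, neg_nonpos]
      exact Real.log_nonneg (by norm_num)
    · have hn : (0 : ℝ) < n := by exact_mod_cast h0
      simp only
      rw [le_div_iff₀ hn]
      have := hlog n
      linarith
  have ht := hsub.tendsto_lim hbdd
  refine ⟨Real.exp (- hsub.lim), ?_, ?_⟩
  · have h1 : - Real.log (12 / 5) ≤ hsub.lim := by
      apply ge_of_tendsto ht
      filter_upwards [eventually_gt_atTop 0] with n hn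
      have hn' : (0 : ℝ) < n := by exact_mod_cast hn
      rw [le_div_iff₀ hn']
      have := hlog n
      linarith
    calc Real.exp (- hsub.lim) ≤ Real.exp (Real.log (12 / 5)) :=
          Real.exp_le_exp.mpr (by linarith)
      _ = 12 / 5 := Real.exp_log (by norm_num)
  · have h2 : Tendsto (fun n : ℕ => Real.exp (- ((- Real.log ((C n).ncard : ℝ)) / n))) atTop
        (𝓝 (Real.exp (- hsub.lim))) := (Real.continuous_exp.tendsto _).comp ht.neg
    apply h2.congr
    intro n
    have h1 : (0 : ℝ) < (C n).ncard := by exact_mod_cast ncard_pos n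
    rw [Real.rpow_def_of_pos h1]
    congr 1
    ring

end Pool.Agent.X54.Osc
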